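import Mathlib
import Pool.Agent.W262.RK.AT4

/-!
# Project TF: the tails for the elliptic curves with a subgroup `Z/2 x Z/4`, light definitions
-/

set_option autoImplicit false

namespace Pool.Agent.T6.H30.TF

open Finset Pool.Agent.W262.RK Pool.Agent.W262.RK.AT

section
variable {J ι : Type} [Fintype J] [DecidableEq J] [Fintype ι] [DecidableEq ι]

/-- the numbers of the prime factors in the classes -/
def nc (cls : ι → J) (d : ι → ℕ) (j : J) : ℕ :=
  ∑ i ∈ univ.filter (fun i => cls i = j), (d i).primeFactors.card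

/-- the local sum over the indices of `U` in the class `c`, at a prime `p` with `(-1 / p) = e`,
`(d i / p) = u i`, `(p / d i) = v i`; `N j` if the constant of the index `j` is `-1` -/
def LS (cls : ι → J) (w : ι → ℝ) (L : ι → ι → Bool) (N : ι → Bool) (U : Finset ι) (c : J) (e : ℝ)
    (u v : ι → ℝ) : ℝ :=
  ∑ j ∈ U.filter (fun j => cls j = c), w j * ((if N j = true then e else 1) *
    ∏ i, ((if L i j = true then u i else 1) * (if L j i = true then v i else 1)))

/-- the sum of the weights of the indices of `U` in the class `c` -/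
def WS (cls : ι → J) (w : ι → ℝ) (U : Finset ι) (c : J) : ℝ :=
  ∑ j ∈ U.filter (fun j => cls j = c), w j

/-- the constants of the indices of the classes of `D` are squares or `-1` times squares -/
def KK (cls : ι → J) (κ : ι → ℤ) (N : ι → Bool) (D : Finset J) : Prop :=
  ∀ j, cls j ∈ D → ∃ m : ℤ, m ≠ 0 ∧ κ j = (if N j = true then -1 else 1) * m ^ 2

/-- there are no symbols between two indices of classes of `D` -/
def LD (cls : ι → J) (L : ι → ι → Bool) (D : Finset J) : Prop :=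
  ∀ i j, cls i ∈ D → cls j ∈ D → L i j = false

/-- the function `a` on the primes `p ≡ 1`, `b` on the other primes -/
noncomputable def gab (a b : ℝ) (c : ℕ) (d : ℕ) : ℝ :=
  ∏ p ∈ d.primeFactors, (if p % 4 = 1 then a else b) / ((p : ℝ) - c)

end

/-- TF-AC: the sum of `gab` over the divisors. -/
def S_AC : Prop := ∀ (a b : ℝ) (c : ℕ), 0 ≤ b → b ≤ a → ∃ z0 : ℕ, ∀ z, z0 ≤ z → ∃ C : ℝ, 0 ≤ C ∧
  ∀ y, z < y → ∑ d ∈ (PP z y).divisors, gab a b c d ≤ C * (Real.log y) ^ ((a + b) / 2)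

/-- TF-REG: summation over the assignments of the primes to the indices of the classes of `D`. -/
def S_REG : Prop := ∀ (J ι : Type) [Fintype J] [DecidableEq J] [Fintype ι] [DecidableEq ι]
  (cls : ι → J) (w : ι → ℝ) (L : ι → ι → Bool) (κ : ι → ℤ) (N : ι → Bool) (c z y : ℕ)
  (D : Finset J) (U : Finset ι) (t : J → ℝ) (β : J → ℝ) (φ : (J → ℕ) → ℝ) (S : ι → Finset ℕ),
  (∀ i, 0 < w i) → 2 ≤ z → 2 * c ≤ z → (∀ i, (κ i).natAbs ≤ z) → KK cls κ N D → LD cls L D →
  (∀ j, 0 < t j) → (∀ c' ∈ D, 0 ≤ β c' ∧ β c' ≤ WS cls w U c') →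
  (∀ c' ∈ D, ∀ u v : ι → ℝ, (∀ i, u i = 1 ∨ u i = -1) → (∀ i, v i = 1 ∨ v i = -1) →
    |LS cls w L N U c' (-1) u v| ≤ β c') →
  (∀ n, 0 ≤ φ n ∧ φ n ≤ ∏ j, t j ^ n j) → (∀ i, S i ⊆ (PP z y).divisors) →
  |∑ d ∈ Fintype.piFinset (fun b => if b ∈ U ∧ cls b ∈ D then (PP z y).divisors else S b),
      HH w L κ c d * φ (nc cls d)| ≤
    (∏ b ∈ univ.filter (fun b => ¬ (b ∈ U ∧ cls b ∈ D)), ∑ m ∈ S b, gw (w b * t (cls b)) c m) *
      ∏ c' ∈ D, ∑ s ∈ (PP z y).divisors, gab (t c' * WS cls w U c') (t c' * β c') c s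

end Pool.Agent.T6.H30.TF
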