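import Mathlib
import Pool.Agent.TH344.BF.Stm
import Pool.Agent.TH344.DT.Atw
import Pool.Agent.TH344.GT.Tail
import Pool.Agent.W307.RT.NB4
import Pool.Agent.T6.H30.TF.Defs1

/-!
# Project TF: the tails for the elliptic curves with a subgroup `Z/2 x Z/4`

The library `Pool/Agent/TH344` bounds all the moments of the orders of the 2-Selmer groups outside of
a set of density zero if the graph of the classes of the forms is regular. For `Z/2 x Z/4` the classes
are `a`, `b` and `a + b`, `a - b` (the last two are not adjacent), and there are *critical* unlinked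
sets `U` of indices: `W` in the classes `a + b`, `a - b` and its orthogonal space in the classes `a`,
`b`, `W` a coisotropic space of dimension greater than `k`. For these sets the weights do not help.
But the constants of the classes `a + b`, `a - b` are `-1` times a square, and the sum over the
assignments of a prime `p ≡ 3` modulo `4` to the indices of `W` is a Gauss sum of order `2 ^ k`.
-/

set_option autoImplicit false

namespace Pool.Agent.T6.H30.TF

open Finset Pool.Agent.W262.RK Pool.Agent.W262.RK.AT Pool.Agent.W307.RT Pool.Agent.TH344.DT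
  Pool.Agent.TH344.JG Pool.Agent.TH344.BF Pool.Agent.TH344.GT

section
variable {J ι : Type} [Fintype J] [DecidableEq J] [Fintype ι] [DecidableEq ι]

lemma nc_eq (cls : ι → J) (d : ι → ℕ) : nc cls d = nn cls (om d) := rfl

/-- a critical set: all proper subsets are small, and the set is small if the local sums in the
classes of `D` at the primes `p ≡ 3` modulo `4` are bounded by `β` -/
def Crt (cls : ι → J) (w : ι → ℝ) (L : ι → ι → Bool) (N : ι → Bool) (K : ℝ) (T : Finset (J → ℝ))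
    (D : Finset J) (U : Finset ι) : Prop :=
  (∀ U' : Finset ι, U' ⊂ U → ∃ t ∈ T, ∑ i ∈ U', w i * t (cls i) < K) ∧
  ∃ t ∈ T, ∃ β : J → ℝ, (∀ c ∈ D, 0 ≤ β c ∧ β c ≤ WS cls w U c) ∧
    (∀ c ∈ D, ∀ u v : ι → ℝ, (∀ i, u i = 1 ∨ u i = -1) → (∀ i, v i = 1 ∨ v i = -1) →
      |LS cls w L N U c (-1) u v| ≤ β c) ∧
    ∑ i ∈ U.filter (fun i => cls i ∉ D), w i * t (cls i) +
      ∑ c ∈ D, t c * ((WS cls w U c + β c) / 2) < K

end

/-- TF-CRIT: the sum over the variables of a critical set, those of the classes of `D` without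
restrictions on the size. -/
def S_CRIT : Prop := ∀ (J ι : Type) [Fintype J] [DecidableEq J] [Fintype ι] [DecidableEq ι]
  (cls : ι → J) (w : ι → ℝ) (L : ι → ι → Bool) (κ : ι → ℤ) (N : ι → Bool) (c : ℕ) (K : ℝ)
  (T : Finset (J → ℝ)) (D : Finset J) (U : Finset ι), (∀ i, 0 < w i) → KK cls κ N D →
  LD cls L D → (∀ t ∈ T, ∀ j, 0 < t j) → Crt cls w L N K T D U →
  ∀ π : ι → Fin 4, (∀ i, π i ≠ 3) → (∀ i, π i = 2 ↔ i ∈ U) → ∀ A : ℕ, ∃ z0 : ℕ, ∀ z, z0 ≤ z →
  ∃ C' : ℝ, ∀ y, z < y →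
    |∑ d ∈ Fintype.piFinset (fun b => if b ∈ U ∧ cls b ∈ D then (PP z y).divisors else
        cell z y (VV A (Real.log y)) (YY A (Real.log y)) (π b)),
      HH w L κ c d * rho T (nn cls (om d))| ≤ C' * (Real.log y) ^ K

/-- TF-ATX: the abstract bound for sums of products of Jacobi symbols, with critical sets. -/
def S_ATX : Prop := ∀ (J ι : Type) [Fintype J] [DecidableEq J] [Fintype ι] [DecidableEq ι]
  (cls : ι → J) (w : ι → ℝ) (L : ι → ι → Bool) (κ : ι → ℤ) (N : ι → Bool) (c : ℕ) (K : ℝ)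
  (T : Finset (J → ℝ)) (D : Finset J),
  (∀ i, 0 < w i ∧ w i ≤ 1 / 2) → (∀ i, L i i = false) → (∀ i, κ i ≠ 0) → 0 ≤ K →
  (∀ t ∈ T, ∀ j, 0 < t j) → KK cls κ N D → LD cls L D →
  (∀ U : Finset ι, (∀ i ∈ U, ∀ j ∈ U, L i j = L j i) →
    Alt cls w L K T U ∨ Crt cls w L N K T D U) →
  ∃ z0 : ℕ, ∀ z, z0 ≤ z → ∃ C : ℝ, ∀ y, z < y →
    |∑ d ∈ Tup ι z y, (∏ i, gw (w i) c (d i)) * Sym L κ d * rho T (nn cls (om d))| ≤
      C * (Real.log y) ^ K

/-- the indices with the constant `-1` -/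
def NI {k : ℕ} (i : IV (Fin 4) k PA) : Bool :=
  decide (i.1.1 = 2 ∨ i.1.1 = 3) && dtp i.1.2.1 i.1.2.2

/-- TF-CMB: the unlinked sets for the classes `a`, `b`, `a + b`, `a - b`. -/
def S_CMB4 : Prop := ∀ k : ℕ, 1 ≤ k → ∃ T : Finset (Fin 4 → ℝ), (∀ t ∈ T, ∀ j, 0 < t j) ∧
  (∀ t ∈ T, 1 < ∏ j, t j) ∧
  ∀ U : Finset (IV (Fin 4) k PA), (∀ i ∈ U, ∀ j ∈ U, LV (ag c4) i j = LV (ag c4) j i) →
    Alt (fun i : IV (Fin 4) k PA => i.1.1) (fun _ => 1 / 2 ^ k) (LV (ag c4)) 4 T U ∨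
    Crt (fun i : IV (Fin 4) k PA => i.1.1) (fun _ => 1 / 2 ^ k) (LV (ag c4)) NI 4 T {2, 3} U

/-- the constants -/
def κ4 : Fin 4 → ℤ := kapM c4 (fun _ => -1) m4 α4 β4

/-- the main average for the classes `a`, `b`, `a + b`, `a - b` -/
def S_MAF4 : Prop := ∀ k : ℕ, 1 ≤ k → ∃ T : Finset (Fin 4 → ℝ), (∀ t ∈ T, ∀ j, 0 < t j) ∧
  (∀ t ∈ T, 1 < ∏ j, t j) ∧ MAFK (ag c4) κ4 k T

/-- TF-T24: from the main average to the curves ordered by height. -/
def S_T24 : Prop := S_AVGB → S_MAF4 → S_BADB →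
  EXC (Cv 4) (fun c => (Pool.Agent.W307.SE.SelR c.1 c.2).ncard)

end Pool.Agent.T6.H30.TF
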