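import Pool.Agent.T6.H30.TF.Defs1
import Pool.Agent.W655.RK.Full
import Pool.Agent.W216.RT.UB4

/-!
# Project TF, module AC
-/

set_option autoImplicit false

namespace Pool.Agent.T6.H30.TF

open Finset Pool.Agent.W262.RK

namespace ModAC

/-- the local weight -/
theorem weight (w : ℝ) (c z p : ℕ) (hw : 0 ≤ w) (hz : 2 * c + 2 ≤ z)
    (hp : z < p) : 0 ≤ w / ((p : ℝ) - c) ∧
    w / ((p : ℝ) - c) ≤ w * (1 / p) + (2 * w * c) * (1 / (p : ℝ) ^ 2) := by
  have hp1 : (2 * c + 3 : ℝ) ≤ p := by exact_mod_cast (by omega : 2 * c + 3 ≤ p)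
  have hc : (0:ℝ) ≤ c := Nat.cast_nonneg c
  have hp0 : (0:ℝ) < p := by linarith
  have hpc : (0:ℝ) < (p : ℝ) - c := by linarith
  constructor
  · positivity
  · have h3 : w * (1 / p) + (2 * w * c) * (1 / (p : ℝ) ^ 2) = (w * p + 2 * w * c) / p ^ 2 := by
      field_simp
    rw [h3, div_le_div_iff₀ hpc (by positivity)]
    have h5 : (w * p + 2 * w * c) * ((p : ℝ) - c) - w * (p : ℝ) ^ 2 = w * c * (p - 2 * c) := by ring
    have h6 : 0 ≤ w * c * ((p : ℝ) - 2 * c) :=
      mul_nonneg (mul_nonneg hw hc) (by linarith)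
    linarith

lemma gval (a b : ℝ) (p : ℕ) (hp : p % 2 = 1) :
    (if p % 4 = 1 then a else b) = (a + b) / 2 + (a - b) / 2 * x4 true p := by
  unfold x4
  simp only [if_true]
  by_cases h4 : p % 4 = 1
  · rw [if_pos h4, ZMod.χ₄_nat_one_mod_four h4]
    push_cast; ring
  · have h3 : p % 4 = 3 := by omega
    rw [if_neg h4, ZMod.χ₄_nat_three_mod_four h3]
    push_cast; ring

end ModAC

theorem ac : S_AC := by
  intro a b c hb hab
  obtain ⟨C0, hC0, hmer⟩ := Pool.Agent.W655.RK.mertens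
  obtain ⟨K, hK, hsq⟩ := Pool.Agent.W655.RK.sum_inv_sq
  have ha : 0 ≤ a := hb.trans hab
  refine ⟨2 * c + 2, fun z hz => ?_⟩
  obtain ⟨C1, hC1⟩ := Pool.Agent.W216.RT.UB4.ub4 z
  have hz2 : 2 ≤ z := by omega
  set φ : ℕ → ℝ := fun p => (if p % 4 = 1 then a else b) / ((p : ℝ) - c) with hφ
  set B : ℝ := (a + b) / 2 * C0 + (a - b) / 2 * C1 + (2 * a * c) * K with hB
  have hg0 : ∀ p : ℕ, 0 ≤ (if p % 4 = 1 then a else b) ∧ (if p % 4 = 1 then a else b) ≤ a := by
    intro p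
    split_ifs
    · exact ⟨ha, le_rfl⟩
    · exact ⟨hb, hab⟩
  have hφ0 : ∀ y, ∀ p ∈ PS z y, 0 ≤ φ p := fun y p hp =>
    (ModAC.weight _ c z p (hg0 p).1 hz (Pool.Agent.W655.RK.PS_lt hp)).1
  have hsum : ∀ y : ℕ, z < y → ∑ p ∈ PS z y, φ p ≤ (a + b) / 2 * Real.log (Real.log y) + B := by
    intro y hy
    have h1 : ∀ p ∈ PS z y, φ p ≤ (a + b) / 2 * (1 / (p : ℝ)) +
        (a - b) / 2 * (x4 true p / (p : ℝ)) + (2 * a * c) * (1 / (p : ℝ) ^ 2) := by
      intro p hp
      have hlt := Pool.Agent.W655.RK.PS_lt hp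
      have hpr := Pool.Agent.W655.RK.PS_prime hp
      have hodd : p % 2 = 1 := by
        rcases hpr.eq_two_or_odd with h | h
        · omega
        · exact h
      have h2 := (ModAC.weight _ c z p (hg0 p).1 hz hlt).2
      have h3 : (2 * (if p % 4 = 1 then a else b) * c) * (1 / (p : ℝ) ^ 2) ≤
          (2 * a * c) * (1 / (p : ℝ) ^ 2) := by
        have h4 : (0 : ℝ) ≤ c := Nat.cast_nonneg c
        have h5 := (hg0 p).2
        have h6 : (0 : ℝ) ≤ 1 / (p : ℝ) ^ 2 := by positivity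
        apply mul_le_mul_of_nonneg_right _ h6
        exact mul_le_mul_of_nonneg_right (by linarith) h4
      have h7 : (if p % 4 = 1 then a else b) * (1 / (p : ℝ)) =
          (a + b) / 2 * (1 / (p : ℝ)) + (a - b) / 2 * (x4 true p / (p : ℝ)) := by
        rw [ModAC.gval a b p hodd]
        ring
      calc φ p ≤ _ := h2
        _ ≤ _ := by rw [h7]; linarith
    calc ∑ p ∈ PS z y, φ p ≤ ∑ p ∈ PS z y, ((a + b) / 2 * (1 / (p : ℝ)) +
          (a - b) / 2 * (x4 true p / (p : ℝ)) + (2 * a * c) * (1 / (p : ℝ) ^ 2)) :=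
          Finset.sum_le_sum h1
      _ = (a + b) / 2 * ∑ p ∈ PS z y, 1 / (p : ℝ) + (a - b) / 2 * ∑ p ∈ PS z y, x4 true p / (p : ℝ)
          + (2 * a * c) * ∑ p ∈ PS z y, 1 / (p : ℝ) ^ 2 := by
          rw [Finset.sum_add_distrib, Finset.sum_add_distrib, Finset.mul_sum, Finset.mul_sum,
            Finset.mul_sum]
      _ ≤ (a + b) / 2 * (Real.log (Real.log y) + C0) + (a - b) / 2 * C1 + (2 * a * c) * K := by
          have h4 : (0 : ℝ) ≤ c := Nat.cast_nonneg c
          refine add_le_add (add_le_add (mul_le_mul_of_nonneg_left (hmer z y (by omega))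
            (by linarith)) (mul_le_mul_of_nonneg_left (hC1 y hy) (by linarith)))
            (mul_le_mul_of_nonneg_left (hsq _) (by positivity))
      _ = _ := by rw [hB]; ring
  refine ⟨Real.exp B, (Real.exp_pos _).le, fun y hy => ?_⟩
  have hlog : 0 < Real.log y := Real.log_pos (by exact_mod_cast (by omega : 1 < y))
  have h0 : ∀ d, gab a b c d = ∏ p ∈ d.primeFactors, φ p := fun d => rfl
  simp only [h0]
  unfold PP
  rw [Pool.Agent.W655.RK.sum_mult (PS z y) (fun p hp => Pool.Agent.W655.RK.PS_prime hp) φ]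
  refine (Pool.Agent.W655.RK.prod_le_exp _ _ fun p hp => by
    have := hφ0 y p hp; linarith).trans ?_
  rw [Real.rpow_def_of_pos hlog, ← Real.exp_add, Real.exp_le_exp]
  have := hsum y hy
  linarith

end Pool.Agent.T6.H30.TF
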