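import Pool.Agent.T6.H30.TF.Defs

/-!
# Project TF, module ATX: the abstract bound with critical sets
-/

set_option autoImplicit false

namespace Pool.Agent.T6.H30.TF

open Finset Pool.Agent.W262.RK Pool.Agent.W262.RK.AT Pool.Agent.TH344.DT

namespace AtxF

section
variable {ι : Type} [Fintype ι] [DecidableEq ι]

/-- the decomposition into patterns, some of the variables without restrictions -/
lemma patterns_on (z y V Y : ℕ) (Q : ι → Prop) [DecidablePred Q] (π : ι → Fin 4)
    (F : (ι → ℕ) → ℝ) :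
    ∑ d ∈ Fintype.piFinset (fun b : ι => if Q b then (PP z y).divisors else cell z y V Y (π b)),
        F d =
      ∑ π' ∈ univ.filter (fun π' : ι → Fin 4 => ∀ b, ¬ Q b → π' b = π b),
        ∑ d ∈ Fintype.piFinset (fun k => cell z y V Y (π' k)), F d := by
  rw [← sum_fiberwise_of_maps_to (s := Fintype.piFinset
    (fun b : ι => if Q b then (PP z y).divisors else cell z y V Y (π b)))
    (t := univ.filter (fun π' : ι → Fin 4 => ∀ b, ¬ Q b → π' b = π b))
    (g := fun d k => cl V Y (d k)) (f := F)]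
  · apply sum_congr rfl
    intro π' hπ'
    have hπ2 := (mem_filter.1 hπ').2
    apply sum_congr _ (fun _ _ => rfl)
    ext d
    simp only [mem_filter, Fintype.mem_piFinset]
    constructor
    · rintro ⟨h1, h2⟩ k
      have h3 := h1 k
      have h4 : cl V Y (d k) = π' k := congrFun h2 k
      unfold cell
      rw [mem_filter]
      refine ⟨?_, h4⟩
      by_cases hq : Q k
      · rwa [if_pos hq] at h3
      · rw [if_neg hq] at h3
        exact cell_sub _ _ _ _ _ h3
    · intro h
      refine ⟨fun k => ?_, funext fun k => ?_⟩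
      · by_cases hq : Q k
        · rw [if_pos hq]
          exact cell_sub _ _ _ _ _ (h k)
        · rw [if_neg hq, ← hπ2 k hq]
          exact h k
      · have := h k
        unfold cell at this
        exact (mem_filter.1 this).2
  · intro d hd
    rw [mem_filter]
    refine ⟨mem_univ _, fun b hb => ?_⟩
    have := (Fintype.mem_piFinset.1 hd) b
    rw [if_neg hb] at this
    unfold cell at this
    exact (mem_filter.1 this).2

end

section
variable {J ι : Type} [Fintype J] [DecidableEq J] [Fintype ι] [DecidableEq ι]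
variable {cls : ι → J} {w : ι → ℝ} {L : ι → ι → Bool} {κ : ι → ℤ} {c : ℕ} {K : ℝ}
  {T : Finset (J → ℝ)}

/-- a pattern with a huge variable -/
lemma pat_tail (hw : ∀ i, 0 < w i) (hK0 : 0 ≤ K) (hT : ∀ t ∈ T, ∀ j, 0 < t j)
    (A : ℕ) (π : ι → Fin 4) {k : ι} (hk : π k = 3) :
    ∀ (z : ℕ) (C : ℝ), Bd w κ c z C → ∃ C' : ℝ, ∀ y, z < y →
      |∑ d ∈ Fintype.piFinset (fun b => cell z y (VV A (Real.log y)) (YY A (Real.log y)) (π b)),
        HH w L κ c d * rho T (nn cls (om d))| ≤ C' * (Real.log y) ^ K := by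
  intro z C hB
  have hr0 := rho_nonneg hT
  have hr1 := rho_le_one T
  have hcz : c ≤ z := by have := hB.zc; omega
  obtain ⟨C', hC'⟩ := tail_abs hB A hK0 π hk
  refine ⟨C', fun y hy => le_trans ?_ (hC' y hy)⟩
  refine (abs_sum_le_sum_abs _ _).trans (sum_le_sum fun d hd => ?_)
  rw [Fintype.mem_piFinset] at hd
  rw [abs_mul, abs_of_nonneg (hr0 _)]
  have h4 := abs_HH_le (L := L) (κ := κ) (w := w) (c := c) (fun i => (hw i).le) hcz
    (fun i => cell_sub _ _ _ _ _ (hd i))
  calc |HH w L κ c d| * rho T (nn cls (om d)) ≤ |HH w L κ c d| * 1 :=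
        mul_le_mul_of_nonneg_left (hr1 _) (abs_nonneg _)
    _ ≤ _ := by rw [mul_one]; exact h4

/-- a pattern with a small set -/
lemma pat_small (hf : S_FUL) (hw : ∀ i, 0 < w i) (hT : ∀ t ∈ T, ∀ j, 0 < t j)
    (A : ℕ) (π : ι → Fin 4) (h3 : ∀ k, π k ≠ 3) {t : J → ℝ} (ht : t ∈ T)
    (hS : ∑ i ∈ univ.filter (fun k => π k = 2), w i * t (cls i) < K) :
    ∃ z0 : ℕ, ∀ (z : ℕ) (C : ℝ), z0 ≤ z → Bd w κ c z C → ∃ C' : ℝ, ∀ y, z < y →
      |∑ d ∈ Fintype.piFinset (fun b => cell z y (VV A (Real.log y)) (YY A (Real.log y)) (π b)),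
        HH w L κ c d * rho T (nn cls (om d))| ≤ C' * (Real.log y) ^ K := by
  have hr0 := rho_nonneg hT
  obtain ⟨z0, hz0, h⟩ := triv_tilt hf (fun i => w i * t (cls i))
    (fun i => mul_pos (hw i) (hT t ht _)) c
  refine ⟨z0, fun z C hz hB => ?_⟩
  have hcz : c ≤ z := by omega
  obtain ⟨C', -, hC'⟩ := h z hz hB.z2 A π h3 K hS
  refine ⟨C', fun y hy => le_trans ?_ (hC' y hy)⟩
  refine (abs_sum_le_sum_abs _ _).trans (sum_le_sum fun d hd => ?_)
  rw [Fintype.mem_piFinset] at hd
  rw [abs_mul, abs_of_nonneg (hr0 _), ← prod_gw_nn cls t w c d]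
  have h4 := abs_HH_le (L := L) (κ := κ) (w := w) (c := c) (fun i => (hw i).le) hcz
    (fun i => cell_sub _ _ _ _ _ (hd i))
  exact mul_le_mul h4 (rho_le_prod ht _) (hr0 _) ((abs_nonneg _).trans h4)

/-- one pattern -/
lemma patx (hf : S_FUL) (hl : S_LNK) (hcr : S_CRIT) {C2 : ℝ} {E2 : ℕ} (hC2 : 0 ≤ C2)
    (h2 : BW C2 E2)
    (hw : ∀ i, 0 < w i) (hL : ∀ i, L i i = false) (hK0 : 0 ≤ K) (hT : ∀ t ∈ T, ∀ j, 0 < t j)
    {N : ι → Bool} {D : Finset J} (hKK : KK cls κ N D) (hLD : LD cls L D)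
    (hU : ∀ U : Finset ι, (∀ i ∈ U, ∀ j ∈ U, L i j = L j i) →
      Alt cls w L K T U ∨ Crt cls w L N K T D U)
    (π : ι → Fin 4) : ∃ z0 : ℕ, ∀ (z : ℕ) (C : ℝ), z0 ≤ z → Bd w κ c z C → ∃ C' : ℝ, ∀ y, z < y →
      |∑ d ∈ Fintype.piFinset (fun b => cell z y (VV (6 * (Fintype.card ι + 2 * E2 + 4))
        (Real.log y)) (YY (6 * (Fintype.card ι + 2 * E2 + 4)) (Real.log y)) (π b)),
        HH w L κ c d * rho T (nn cls (om d))| ≤ C' * (Real.log y) ^ K := by
  classical
  set A := 6 * (Fintype.card ι + 2 * E2 + 4) with hA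
  have hr0 := rho_nonneg hT
  have hr1 := rho_le_one T
  by_cases h3 : ∃ k, π k = 3
  · obtain ⟨k, hk⟩ := h3
    exact ⟨0, fun z C _ hB => pat_tail hw hK0 hT A π hk z C hB⟩
  push Not at h3
  by_cases hlk : ∃ i j, π i = 2 ∧ π j = 2 ∧ L i j ≠ L j i
  · obtain ⟨i, j, hi, hj, hij⟩ := hlk
    refine ⟨0, fun z C _ hB => ?_⟩
    obtain ⟨C', hC'⟩ := hl ι w L κ c z C C2 E2 A π i j hB hC2 h2 hL le_rfl hi hj hij
    refine ⟨|C'|, fun y hy => ?_⟩
    have h4 := hC' (fun n => rho T (nn cls n)) (fun n => by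
      rw [abs_of_nonneg (hr0 _)]; exact hr1 _) y hy
    have hly := one_le_log hB.z2 hy
    have h5 : 1 ≤ (Real.log y) ^ K := Real.one_le_rpow hly hK0
    refine h4.trans ((le_abs_self _).trans ?_)
    exact le_mul_of_one_le_right (abs_nonneg _) h5
  push Not at hlk
  set U := univ.filter (fun k => π k = 2) with hUd
  have hun : ∀ i ∈ U, ∀ j ∈ U, L i j = L j i := fun i hi j hj =>
    hlk i j (mem_filter.1 hi).2 (mem_filter.1 hj).2
  rcases hU U hun with (⟨t, ht, hS⟩ | ⟨hS, hθ, hmax⟩) | hcrt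
  · -- the tilted trivial bound
    exact pat_small hf hw hT A π h3 ht hS
  · -- the main case
    have hθ' : ∀ t : J → ℝ, ∃ θ : ℝ, t ∈ T → 0 < θ ∧ ∑ i ∈ U, w i * t (cls i) ^ (-θ) < K := by
      intro t
      by_cases ht : t ∈ T
      · obtain ⟨θ, h4, h5⟩ := hθ t ht
        exact ⟨θ, fun _ => ⟨h4, h5⟩⟩
      · exact ⟨0, fun h => absurd h ht⟩
    choose θ hθ' using hθ'
    have hz0' : ∀ t : J → ℝ, ∃ z0 : ℕ, t ∈ T → c ≤ z0 ∧ ∀ z, z0 ≤ z → 2 ≤ z →
        ∃ C' : ℝ, 0 ≤ C' ∧ ∀ y, z < y →
        ∑ d ∈ Fintype.piFinset (fun b => cell z y (VV A (Real.log y)) (YY A (Real.log y)) (π b)),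
          ∏ i, gw (w i * t (cls i) ^ (-(θ t))) c (d i) ≤ C' * (Real.log y) ^ K := by
      intro t
      by_cases ht : t ∈ T
      · obtain ⟨z0, h4, h5⟩ := triv_tilt hf (fun i => w i * t (cls i) ^ (-(θ t)))
          (fun i => mul_pos (hw i) (Real.rpow_pos_of_pos (hT t ht _) _)) c
        refine ⟨z0, fun _ => ⟨h4, fun z hz hz2 => ?_⟩⟩
        exact h5 z hz hz2 A π h3 K (hθ' t ht).2
      · exact ⟨0, fun h => absurd h ht⟩
    choose z0 hz0 using hz0'
    refine ⟨T.sup z0, fun z C hz hB => ?_⟩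
    have hcz : c ≤ z := by have := hB.zc; omega
    -- the sum without the weight
    have hfull : ∃ C' : ℝ, ∀ y, z < y →
        |∑ d ∈ Fintype.piFinset (fun b => cell z y (VV A (Real.log y)) (YY A (Real.log y)) (π b)),
          HH w L κ c d| ≤ C' * (Real.log y) ^ K := by
      by_cases h1 : ∃ j, π j = 1
      · obtain ⟨j, hj⟩ := h1
        have hjU : j ∉ U := by
          rw [hUd, mem_filter, hj]
          rintro ⟨-, h⟩
          exact absurd h (by decide)
        obtain ⟨i, hi, hij⟩ := hmax j hjU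
        exact max_case hB hL A π h3 (mem_filter.1 hi).2 hj hij
          (fun k hk => hlk i k (mem_filter.1 hi).2 hk) hS
      · push Not at h1
        refine diag_case hB A π (fun k => ?_) hS
        have a1 := h1 k
        have a3 := h3 k
        revert a1 a3
        generalize π k = r
        revert r
        decide
    obtain ⟨C1, hC1⟩ := hfull
    have hsum : ∀ t : J → ℝ, ∃ C' : ℝ, t ∈ T → 0 ≤ C' ∧ ∀ y, z < y →
        ∑ d ∈ Fintype.piFinset (fun b => cell z y (VV A (Real.log y)) (YY A (Real.log y)) (π b)),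
          ∏ i, gw (w i * t (cls i) ^ (-(θ t))) c (d i) ≤ C' * (Real.log y) ^ K := by
      intro t
      by_cases ht : t ∈ T
      · obtain ⟨C', h4⟩ := (hz0 t ht).2 z ((le_sup (f := z0) ht).trans hz) hB.z2
        exact ⟨C', fun _ => h4⟩
      · exact ⟨0, fun h => absurd h ht⟩
    choose C3 hC3 using hsum
    refine ⟨C1 + ∑ t ∈ T, C3 t, fun y hy => ?_⟩
    set P := Fintype.piFinset
      (fun b => cell z y (VV A (Real.log y)) (YY A (Real.log y)) (π b)) with hP
    have hPd : ∀ d ∈ P, ∀ i, d i ∈ (PP z y).divisors := fun d hd i =>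
      cell_sub _ _ _ _ _ (Fintype.mem_piFinset.1 hd i)
    have hgw0 : ∀ d ∈ P, 0 ≤ ∏ i, gw (w i) c (d i) := fun d hd =>
      prod_nonneg fun i _ => gw_nonneg (hw i).le hcz (hPd d hd i)
    have hsplit : ∑ d ∈ P, HH w L κ c d * rho T (nn cls (om d)) =
        ∑ d ∈ P, HH w L κ c d - ∑ d ∈ P, HH w L κ c d * (1 - rho T (nn cls (om d))) := by
      rw [← sum_sub_distrib]
      apply sum_congr rfl
      intro d _
      ring
    have herr : |∑ d ∈ P, HH w L κ c d * (1 - rho T (nn cls (om d)))| ≤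
        ∑ t ∈ T, C3 t * (Real.log y) ^ K := by
      have hone : ∀ d ∈ P, |HH w L κ c d * (1 - rho T (nn cls (om d)))| ≤
          ∑ t ∈ T, ∏ i, gw (w i * t (cls i) ^ (-(θ t))) c (d i) := by
        intro d hd
        have h4 := abs_HH_le (L := L) (κ := κ) (w := w) (c := c) (fun i => (hw i).le) hcz
          (hPd d hd)
        have h5 : 0 ≤ 1 - rho T (nn cls (om d)) := by linarith [hr1 (nn cls (om d))]
        rw [abs_mul, abs_of_nonneg h5]
        calc |HH w L κ c d| * (1 - rho T (nn cls (om d)))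
            ≤ (∏ i, gw (w i) c (d i)) *
              ∑ t ∈ T, (if ∏ j, t j ^ nn cls (om d) j < 1 then (1 : ℝ) else 0) :=
              mul_le_mul h4 (one_sub_rho_le hT _) h5 (hgw0 d hd)
          _ ≤ _ := by
              rw [mul_sum]
              apply sum_le_sum
              intro t ht
              have ht0 := hT t ht
              have hθ0 := (hθ' t ht).1
              have hp0 : 0 < ∏ j, t j ^ nn cls (om d) j := prod_pos fun j _ => pow_pos (ht0 j) _
              have e1 : ∏ i, gw (w i * t (cls i) ^ (-(θ t))) c (d i) =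
                  (∏ i, gw (w i) c (d i)) * (∏ j, t j ^ nn cls (om d) j) ^ (-(θ t)) := by
                rw [← prod_gw_nn cls (fun j => t j ^ (-(θ t))) w c d]
                congr 1
                rw [← Real.finsetProd_rpow _ _ (fun j _ => (pow_pos (ht0 j) _).le)]
                apply prod_congr rfl
                intro j _
                rw [← Real.rpow_natCast, ← Real.rpow_natCast, ← Real.rpow_mul (ht0 j).le,
                  ← Real.rpow_mul (ht0 j).le, mul_comm]
              rw [e1]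
              apply mul_le_mul_of_nonneg_left _ (hgw0 d hd)
              split_ifs with hlt
              · rw [Real.rpow_neg hp0.le]
                rw [one_le_inv₀ (Real.rpow_pos_of_pos hp0 _)]
                exact Real.rpow_le_one hp0.le hlt.le hθ0.le
              · exact Real.rpow_nonneg hp0.le _
      refine (abs_sum_le_sum_abs _ _).trans ((sum_le_sum hone).trans ?_)
      rw [sum_comm]
      exact sum_le_sum fun t ht => (hC3 t ht).2 y hy
    rw [hsplit, add_mul, sum_mul]
    exact (abs_sub _ _).trans (add_le_add (hC1 y hy) herr)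
  · -- the critical case
    have hπU : ∀ i, π i = 2 ↔ i ∈ U := fun i => by rw [hUd, mem_filter]; simp
    obtain ⟨zc, hzc⟩ := hcr J ι cls w L κ N c K T D U hw hKK hLD hT hcrt π h3 hπU A
    set G : Finset (ι → Fin 4) :=
      univ.filter (fun π' : ι → Fin 4 => ∀ b, ¬ (b ∈ U ∧ cls b ∈ D) → π' b = π b) with hG
    have hother : ∀ π' : ι → Fin 4, ∃ z0 : ℕ, π' ∈ G → π' ≠ π → ∀ (z : ℕ) (C : ℝ), z0 ≤ z →
        Bd w κ c z C → ∃ C' : ℝ, ∀ y, z < y →
        |∑ d ∈ Fintype.piFinset (fun b => cell z y (VV A (Real.log y)) (YY A (Real.log y))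
          (π' b)), HH w L κ c d * rho T (nn cls (om d))| ≤ C' * (Real.log y) ^ K := by
      intro π'
      by_cases hin : π' ∈ G ∧ π' ≠ π
      swap
      · exact ⟨0, fun h1 h2 => absurd ⟨h1, h2⟩ hin⟩
      obtain ⟨h4, h5⟩ := hin
      by_cases h6 : ∃ k, π' k = 3
      · obtain ⟨k, hk⟩ := h6
        exact ⟨0, fun _ _ z C _ hB => pat_tail hw hK0 hT A π' hk z C hB⟩
      push Not at h6
      have hsub : univ.filter (fun k => π' k = 2) ⊂ U := by
        have hG2 := (mem_filter.1 h4).2
        have hss : univ.filter (fun k => π' k = 2) ⊆ U := by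
          intro b hb
          by_contra hbU
          have := hG2 b (fun h => hbU h.1)
          rw [(mem_filter.1 hb).2] at this
          exact hbU ((hπU b).1 this.symm)
        rw [ssubset_iff_of_subset hss]
        obtain ⟨b, hb⟩ := Function.ne_iff.1 h5
        have hbA : b ∈ U ∧ cls b ∈ D := by
          by_contra h
          exact hb (hG2 b h)
        refine ⟨b, hbA.1, fun h => hb ?_⟩
        rw [(mem_filter.1 h).2, (hπU b).2 hbA.1]
      obtain ⟨t, ht, hS⟩ := hcrt.1 _ hsub
      obtain ⟨z0, hz0⟩ := pat_small (L := L) (κ := κ) (c := c) hf hw hT A π' h6 ht hS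
      exact ⟨z0, fun _ _ => hz0⟩
    choose zo hzo using hother
    refine ⟨zc + univ.sup zo, fun z C hz hB => ?_⟩
    obtain ⟨Cc, hCc⟩ := hzc z (by omega)
    have hoz : ∀ π' : ι → Fin 4, ∃ C' : ℝ, π' ∈ G → π' ≠ π → ∀ y, z < y →
        |∑ d ∈ Fintype.piFinset (fun b => cell z y (VV A (Real.log y)) (YY A (Real.log y))
          (π' b)), HH w L κ c d * rho T (nn cls (om d))| ≤ C' * (Real.log y) ^ K := by
      intro π'
      by_cases hin : π' ∈ G ∧ π' ≠ π
      swap
      · exact ⟨0, fun h1 h2 => absurd ⟨h1, h2⟩ hin⟩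
      obtain ⟨C', hC'⟩ := hzo π' hin.1 hin.2 z C
        ((le_sup (f := zo) (mem_univ π')).trans (by omega)) hB
      exact ⟨C', fun _ _ => hC'⟩
    choose Co hCo using hoz
    refine ⟨Cc + ∑ π' ∈ G.erase π, Co π', fun y hy => ?_⟩
    have hpat := patterns_on z y (VV A (Real.log y)) (YY A (Real.log y))
      (fun b => b ∈ U ∧ cls b ∈ D) π (fun d => HH w L κ c d * rho T (nn cls (om d)))
    have hπG : π ∈ G := by
      rw [hG, mem_filter]
      exact ⟨mem_univ _, fun _ _ => rfl⟩
    rw [← hG, ← add_sum_erase G _ hπG] at hpat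
    have hmain := hCc y hy
    have heq : ∑ d ∈ Fintype.piFinset
        (fun b => cell z y (VV A (Real.log y)) (YY A (Real.log y)) (π b)),
        HH w L κ c d * rho T (nn cls (om d)) =
        ∑ d ∈ Fintype.piFinset (fun b => if b ∈ U ∧ cls b ∈ D then (PP z y).divisors else
          cell z y (VV A (Real.log y)) (YY A (Real.log y)) (π b)),
          HH w L κ c d * rho T (nn cls (om d)) -
        ∑ π' ∈ G.erase π, ∑ d ∈ Fintype.piFinset
          (fun b => cell z y (VV A (Real.log y)) (YY A (Real.log y)) (π' b)),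
          HH w L κ c d * rho T (nn cls (om d)) := by
      rw [hpat]
      ring
    rw [heq, add_mul, sum_mul]
    refine (abs_sub _ _).trans (add_le_add hmain ?_)
    refine (abs_sum_le_sum_abs _ _).trans (sum_le_sum fun π' hπ' => ?_)
    exact hCo π' (mem_of_mem_erase hπ') (ne_of_mem_erase hπ') y hy

end

end AtxF

open AtxF

/-- **the abstract bound with critical sets** -/
theorem atx (hf : S_FUL) (hl : S_LNK) (hcr : S_CRIT) : S_ATX := by
  intro J ι _ _ _ _ cls w L κ N c K T D hw hL hκ hK0 hT hKK hLD hU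
  classical
  obtain ⟨C2, E2, h2⟩ := Pool.Agent.W655.RK.blw_of (_root_.W37.RK.bl_of Pool.Agent.W505.RK.ls)
  have he := Pool.Agent.W655.RK.ep_of Pool.Agent.W586.RK.UB.ub
  have hfu := Pool.Agent.W655.RK.full
  choose zE hE using fun i => he (w i) c (κ i) (hw i).1 (hw i).2 (hκ i)
  choose zF hF using fun i => hfu (w i) c (hw i).1 (hw i).2
  have h2' : BW |C2| E2 := fun V Y hV hVY a b ha hb ha' hb' =>
    (h2 V Y hV hVY a b ha hb ha' hb').trans (by
      apply mul_le_mul_of_nonneg_right _ (by positivity)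
      exact mul_le_mul_of_nonneg_right (le_abs_self C2)
        (pow_nonneg (Real.log_natCast_nonneg Y) _))
  choose zP hP using fun π : ι → Fin 4 => patx (κ := κ) (c := c) hf hl hcr (abs_nonneg C2) h2'
    (fun i => (hw i).1) hL hK0 hT hKK hLD hU π
  refine ⟨univ.sup zE + univ.sup zF + univ.sup zP + 2 * c + 2, fun z hz => ?_⟩
  have hzE : ∀ i, zE i ≤ z := fun i => (le_sup (f := zE) (mem_univ i)).trans (by omega)
  have hzF : ∀ i, zF i ≤ z := fun i => (le_sup (f := zF) (mem_univ i)).trans (by omega)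
  have hzP : ∀ π, zP π ≤ z := fun π => (le_sup (f := zP) (mem_univ π)).trans (by omega)
  choose CE hCE using fun i => hE i z (hzE i)
  choose CF hCF1 hCF2 hCF3 using fun i => hF i z (hzF i)
  set C : ℝ := 1 + ∑ i, (|CE i| + |CF i|) with hC
  have hCi : ∀ i, |CE i| + |CF i| ≤ C := by
    intro i
    have h1 : |CE i| + |CF i| ≤ ∑ i, (|CE i| + |CF i|) :=
      single_le_sum (f := fun i => |CE i| + |CF i|) (fun j _ => by positivity) (mem_univ i)
    linarith
  have hCE' : ∀ i, CE i ≤ C := fun i => by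
    have := le_abs_self (CE i)
    have := abs_nonneg (CF i)
    linarith [hCi i]
  have hCF' : ∀ i, CF i ≤ C := fun i => by
    have := le_abs_self (CF i)
    have := abs_nonneg (CE i)
    linarith [hCi i]
  have hB : Bd w κ c z C :=
    { w0 := fun i => (hw i).1
      w1 := fun i => (hw i).2
      z2 := by omega
      zc := by omega
      C1 := by
        rw [hC]
        have : 0 ≤ ∑ i, (|CE i| + |CF i|) := sum_nonneg fun i _ => by positivity
        linarith
      F1 := fun i y hy => (hCF1 i y hy).trans (mul_le_mul_of_nonneg_right (hCF' i)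
        (Real.rpow_nonneg (Real.log_natCast_nonneg y) _))
      F2 := fun i y V hy hV => (hCF2 i y V hy hV).trans (mul_le_mul_of_nonneg_right (hCF' i)
        (Real.rpow_nonneg (Real.log_natCast_nonneg V) _))
      F3 := fun i y Y hy hY => (hCF3 i y Y hy hY).trans (by
        apply mul_le_mul_of_nonneg_right _ (by positivity)
        exact mul_le_mul_of_nonneg_right (hCF' i) (Real.exp_pos _).le)
      E := fun i y R r e hy hR hr hs hp => (hCE i y R r e hy hR hr hs hp).trans (by
        apply mul_le_mul_of_nonneg_right _ (hh_nonneg _)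
        exact mul_le_mul_of_nonneg_right (hCE' i)
          (Real.rpow_nonneg (Real.log_natCast_nonneg r) _)) }
  choose C' hC' using fun π : ι → Fin 4 => hP π z C (hzP π) hB
  refine ⟨∑ π, C' π, fun y hy => ?_⟩
  have htot : ∑ d ∈ Tup ι z y, (∏ i, gw (w i) c (d i)) * Sym L κ d * rho T (nn cls (om d)) =
      ∑ d ∈ Fintype.piFinset (fun _ : ι => (PP z y).divisors),
        HH w L κ c d * rho T (nn cls (om d)) := by
    unfold Tup HH
    rw [sum_filter]
    apply sum_congr rfl
    intro d _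
    split_ifs
    · rfl
    · rw [zero_mul]
  rw [htot, patterns z y (VV (6 * (Fintype.card ι + 2 * E2 + 4)) (Real.log y))
    (YY (6 * (Fintype.card ι + 2 * E2 + 4)) (Real.log y)), sum_mul]
  exact (abs_sum_le_sum_abs _ _).trans (sum_le_sum fun π _ => hC' π y hy)

end Pool.Agent.T6.H30.TF
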