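import Pool.Agent.T6.H30.TF.Defs
import Pool.Agent.TH344.JG.Cmb

/-!
# Project TF, module CMB4: the unlinked sets for the classes `a`, `b`, `a + b`, `a - b`
-/

set_option autoImplicit false

namespace Pool.Agent.T6.H30.TF

open Finset Pool.Agent.W262.RK Pool.Agent.W262.RK.AT Pool.Agent.W307.RT Pool.Agent.W307.FK
  Pool.Agent.TH344.DT Pool.Agent.TH344.JG Pool.Agent.TH344.BF Pool.Agent.TH344.GT

namespace CmbF

open Pool.Agent.TH344.DT.CmbX Pool.Agent.TH344.JG.CmbV

/-- sum of vectors -/
def xv {k : ℕ} (x y : Fin k → Bool) : Fin k → Bool := fun j => xor (x j) (y j)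

/-- sum of pairs -/
def xp {k : ℕ} (a b : (Fin k → Bool) × (Fin k → Bool)) : (Fin k → Bool) × (Fin k → Bool) :=
  (xv a.1 b.1, xv a.2 b.2)

theorem xv_self {k : ℕ} (x y : Fin k → Bool) : xv (xv x y) y = x := by
  funext j; simp [xv]

theorem xp_self {k : ℕ} (a b : (Fin k → Bool) × (Fin k → Bool)) : xp (xp a b) b = a := by
  simp [xp, xv_self]

theorem xp_self' {k : ℕ} (a b : (Fin k → Bool) × (Fin k → Bool)) : xp a (xp a b) = b := by
  ext j <;> simp [xp, xv]

theorem chi_xv (k : ℕ) (x x' z : Fin k → Bool) : chi k (xv x x') z = chi k x z * chi k x' z := by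
  unfold chi
  rw [← Finset.prod_mul_distrib]
  apply Finset.prod_congr rfl
  intro j _
  unfold xv
  cases x j <;> cases x' j <;> cases z j <;> simp

theorem chi_xv' (k : ℕ) (x z z' : Fin k → Bool) : chi k x (xv z z') = chi k x z * chi k x z' := by
  rw [chi_symm, chi_xv, chi_symm k z, chi_symm k z']

theorem hh_xp (k : ℕ) (a a' b : (Fin k → Bool) × (Fin k → Bool)) :
    hh k (xp a a') b = hh k a b * hh k a' b := by
  unfold CmbX.hh xp
  simp only
  rw [chi_xv, chi_xv']
  ring

theorem chi_or (k : ℕ) (x z : Fin k → Bool) : chi k x z = 1 ∨ chi k x z = -1 := by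
  unfold chi
  apply Finset.prod_induction _ (fun t : ℤ => t = 1 ∨ t = -1)
  · rintro a b (rfl | rfl) (rfl | rfl) <;> simp
  · left; rfl
  · intro j _
    split_ifs <;> simp

theorem hh_or (k : ℕ) (a b : (Fin k → Bool) × (Fin k → Bool)) : hh k a b = 1 ∨ hh k a b = -1 := by
  unfold CmbX.hh
  rcases chi_or k a.1 b.2 with h | h <;> rcases chi_or k b.1 a.2 with h' | h' <;> rw [h, h'] <;>
    simp

theorem inner_sum {k : ℕ} (W : Finset ((Fin k → Bool) × (Fin k → Bool)))
    (hW : ∀ a ∈ W, ∀ b ∈ W, xp a b ∈ W) (h : (Fin k → Bool) × (Fin k → Bool))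
    (hh1 : ¬ ∀ a ∈ W, hh k a h = 1) : ∑ a ∈ W, hh k a h = 0 := by
  push Not at hh1
  obtain ⟨a0, ha0, h0⟩ := hh1
  have h0' : hh k a0 h = -1 := (hh_or k a0 h).resolve_left h0
  have h1 : ∑ a ∈ W, hh k a h = ∑ a ∈ W, hh k (xp a a0) h := by
    refine Finset.sum_nbij' (fun a => xp a a0) (fun a => xp a a0) (fun a ha => hW a ha a0 ha0)
      (fun a ha => hW a ha a0 ha0) (fun a _ => xp_self a a0) (fun a _ => xp_self a a0) ?_
    intro a _
    rw [xp_self]
  have h2 : ∑ a ∈ W, hh k (xp a a0) h = -∑ a ∈ W, hh k a h := by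
    rw [← Finset.sum_neg_distrib]
    apply Finset.sum_congr rfl
    intro a _
    rw [hh_xp, h0']
    ring
  omega

/-- the square of a sum of a quadratic character -/
theorem quad_sum {k : ℕ} (W : Finset ((Fin k → Bool) × (Fin k → Bool)))
    (hW : ∀ a ∈ W, ∀ b ∈ W, xp a b ∈ W) (s : (Fin k → Bool) × (Fin k → Bool) → ℝ)
    (hs : ∀ a, s a = 1 ∨ s a = -1)
    (hm : ∀ a b, s (xp a b) = s a * s b * (hh k a b : ℝ)) :
    (∑ a ∈ W, s a) ^ 2 ≤ (W.card : ℝ) * ((univ.filter (fun h => ∀ a ∈ W, hh k a h = 1)).card : ℝ) := by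
  classical
  have h1 : (∑ a ∈ W, s a) ^ 2 = ∑ h ∈ W, s h * ((∑ a ∈ W, hh k a h : ℤ) : ℝ) := by
    rw [sq, Finset.sum_mul_sum]
    have e1 : ∀ a ∈ W, ∑ b ∈ W, s a * s b = ∑ h ∈ W, s h * (hh k a h : ℝ) := by
      intro a ha
      refine Finset.sum_nbij' (fun b => xp a b) (fun b => xp a b) (fun b hb => hW a ha b hb)
        (fun b hb => hW a ha b hb) (fun b _ => xp_self' a b) (fun b _ => xp_self' a b) ?_
      intro b _
      have e2 := hm a (xp a b)
      rw [xp_self'] at e2
      have e3 : s a * s a = 1 := by rcases hs a with h | h <;> rw [h] <;> norm_num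
      rw [e2]
      linear_combination (s (xp a b) * (hh k a (xp a b) : ℝ)) * e3
    rw [Finset.sum_congr rfl e1, Finset.sum_comm]
    apply Finset.sum_congr rfl
    intro h _
    rw [← Finset.mul_sum]
    push_cast
    rfl
  rw [h1]
  have h2 : ∀ h ∈ W, s h * ((∑ a ∈ W, hh k a h : ℤ) : ℝ) ≤
      if (∀ a ∈ W, hh k a h = 1) then (W.card : ℝ) else 0 := by
    intro h _
    split_ifs with hc
    · have : ∑ a ∈ W, hh k a h = (W.card : ℤ) := by
        rw [Finset.sum_congr rfl hc]
        simp
      rw [this]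
      push_cast
      rcases hs h with e | e <;> rw [e]
      · linarith
      · have : (0 : ℝ) ≤ W.card := Nat.cast_nonneg _
        linarith
    · rw [inner_sum W hW h hc]
      simp
  refine (Finset.sum_le_sum h2).trans ?_
  rw [← Finset.sum_filter, Finset.sum_const, nsmul_eq_mul, mul_comm]
  apply mul_le_mul_of_nonneg_left _ (Nat.cast_nonneg _)
  exact_mod_cast Finset.card_le_card (Finset.filter_subset_filter _ (Finset.subset_univ _))

theorem dtp_iff {k : ℕ} (x y : Fin k → Bool) : dtp x y = true ↔ chi k x y = -1 := by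
  rw [chi_eq, dtp_eq, decide_eq_true_iff]
  constructor
  · intro h
    exact Odd.neg_one_pow (Nat.odd_iff.mpr h)
  · intro h
    by_contra h2
    have h3 : Even (dt k x y) := Nat.even_iff.mpr (by omega)
    rw [h3.neg_one_pow] at h
    norm_num at h

theorem dtp_xv {k : ℕ} (x x' y : Fin k → Bool) : dtp (xv x x') y = xor (dtp x y) (dtp x' y) := by
  rw [Bool.eq_iff_iff, dtp_iff, chi_xv]
  have e1 := dtp_iff x y
  have e2 := dtp_iff x' y
  rcases chi_or k x y with h | h <;> rcases chi_or k x' y with h' | h' <;>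
    rw [h] at e1 <;> rw [h'] at e2 <;> rw [h, h'] <;> cases h3 : dtp x y <;>
    cases h4 : dtp x' y <;> simp_all

theorem dtp_symm {k : ℕ} (x y : Fin k → Bool) : dtp x y = dtp y x := by
  rw [Bool.eq_iff_iff, dtp_iff, dtp_iff, chi_symm]

theorem dtp_xv' {k : ℕ} (x y y' : Fin k → Bool) : dtp x (xv y y') = xor (dtp x y) (dtp x y') := by
  rw [dtp_symm, dtp_xv, dtp_symm y, dtp_symm y']

theorem ite_mul_xor (b p q : Bool) {u : ℝ} (hu : u = 1 ∨ u = -1) :
    (if (b && xor p q) = true then u else 1) =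
      (if (b && p) = true then u else 1) * (if (b && q) = true then u else 1) := by
  rcases hu with rfl | rfl <;> cases b <;> cases p <;> cases q <;> simp

section
variable {k : ℕ}

/-- the quadratic character of a class -/
noncomputable def sq4 (c : Fin 4) (u v : IV (Fin 4) k PA → ℝ)
    (a : (Fin k → Bool) × (Fin k → Bool)) : ℝ :=
  (chi k a.1 a.2 : ℝ) * ∏ i : IV (Fin 4) k PA,
    ((if (ag c4 i.1.1 c && dtp i.1.2.1 a.2) = true then u i else 1) *
      (if (ag c4 c i.1.1 && dtp a.1 i.1.2.2) = true then v i else 1))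

theorem sq4_or (c : Fin 4) {u v : IV (Fin 4) k PA → ℝ} (hu : ∀ i, u i = 1 ∨ u i = -1)
    (hv : ∀ i, v i = 1 ∨ v i = -1) (a : (Fin k → Bool) × (Fin k → Bool)) :
    sq4 c u v a = 1 ∨ sq4 c u v a = -1 := by
  have hmul : ∀ x y : ℝ, (x = 1 ∨ x = -1) → (y = 1 ∨ y = -1) → (x * y = 1 ∨ x * y = -1) := by
    rintro x y (rfl | rfl) (rfl | rfl) <;> simp
  unfold sq4
  apply hmul
  · rcases chi_or k a.1 a.2 with h | h <;> rw [h] <;> simp
  · apply Finset.prod_induction _ (fun t : ℝ => t = 1 ∨ t = -1)
    · exact fun x y hx hy => hmul x y hx hy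
    · left; rfl
    · intro i _
      apply hmul
      · split_ifs
        · exact hu i
        · left; rfl
      · split_ifs
        · exact hv i
        · left; rfl

theorem sq4_mul (c : Fin 4) {u v : IV (Fin 4) k PA → ℝ} (hu : ∀ i, u i = 1 ∨ u i = -1)
    (hv : ∀ i, v i = 1 ∨ v i = -1) (a b : (Fin k → Bool) × (Fin k → Bool)) :
    sq4 c u v (xp a b) = sq4 c u v a * sq4 c u v b * (hh k a b : ℝ) := by
  unfold sq4
  have h1 : (chi k (xp a b).1 (xp a b).2 : ℝ) =
      (chi k a.1 a.2 : ℝ) * (chi k b.1 b.2 : ℝ) * (hh k a b : ℝ) := by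
    have : chi k (xp a b).1 (xp a b).2 = chi k a.1 a.2 * chi k b.1 b.2 * hh k a b := by
      unfold xp CmbX.hh
      simp only
      rw [chi_xv, chi_xv', chi_xv']
      ring
    rw [this]
    push_cast
    ring
  have h2 : ∏ i : IV (Fin 4) k PA,
      ((if (ag c4 i.1.1 c && dtp i.1.2.1 (xp a b).2) = true then u i else 1) *
        (if (ag c4 c i.1.1 && dtp (xp a b).1 i.1.2.2) = true then v i else 1)) =
      (∏ i : IV (Fin 4) k PA,
        ((if (ag c4 i.1.1 c && dtp i.1.2.1 a.2) = true then u i else 1) *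
          (if (ag c4 c i.1.1 && dtp a.1 i.1.2.2) = true then v i else 1))) *
      ∏ i : IV (Fin 4) k PA,
        ((if (ag c4 i.1.1 c && dtp i.1.2.1 b.2) = true then u i else 1) *
          (if (ag c4 c i.1.1 && dtp b.1 i.1.2.2) = true then v i else 1)) := by
    rw [← Finset.prod_mul_distrib]
    apply Finset.prod_congr rfl
    intro i _
    unfold xp
    simp only
    rw [dtp_xv, dtp_xv', ite_mul_xor _ _ _ (hu i), ite_mul_xor _ _ _ (hv i)]
    ring
  rw [h1, h2]
  ring

theorem LS_eq (U : Finset (IV (Fin 4) k PA)) (c : Fin 4) (hc : c = 2 ∨ c = 3)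
    (u v : IV (Fin 4) k PA → ℝ) :
    LS (fun i : IV (Fin 4) k PA => i.1.1) (fun _ => 1 / 2 ^ k) (LV (ag c4)) NI U c (-1) u v =
      1 / 2 ^ k * ∑ a ∈ (U.filter (fun i => i.1.1 = c)).image (fun i => i.1.2), sq4 c u v a := by
  unfold LS
  rw [Finset.sum_image, Finset.mul_sum]
  · apply Finset.sum_congr rfl
    intro j hj
    have hjc : j.1.1 = c := (Finset.mem_filter.1 hj).2
    unfold sq4 LV NI
    have e1 : (decide (j.1.1 = 2 ∨ j.1.1 = 3)) = true := by
      rw [decide_eq_true_iff, hjc]; exact hc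
    rw [e1, Bool.true_and, hjc]
    congr 2
    have e2 := dtp_iff j.1.2.1 j.1.2.2
    rcases chi_or k j.1.2.1 j.1.2.2 with h | h
    · rw [h] at e2 ⊢
      rw [if_neg (fun h3 => by have := e2.1 h3; norm_num at this)]
      norm_num
    · rw [h] at e2 ⊢
      rw [if_pos (e2.2 rfl)]
      norm_num
  · intro i hi j hj hij
    have hic : i.1.1 = c := (Finset.mem_filter.1 hi).2
    have hjc : j.1.1 = c := (Finset.mem_filter.1 hj).2
    exact Subtype.ext (Prod.ext (hic.trans hjc.symm) hij)

theorem agc_symm (c c' : Fin 4) : ag c4 c c' = ag c4 c' c := by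
  revert c c'; decide

/-- the local sums of a critical set -/
theorem LS_le (U : Finset (IV (Fin 4) k PA))
    (hU : ∀ i ∈ U, ∀ j ∈ U, LV (ag c4) i j = LV (ag c4) j i) (c : Fin 4) (hc : c = 2 ∨ c = 3)
    (h0 : 0 < uV U 0) (huc : uV U 0 * uV U c = 4 ^ k)
    (u v : IV (Fin 4) k PA → ℝ) (hu : ∀ i, u i = 1 ∨ u i = -1)
    (hv : ∀ i, v i = 1 ∨ v i = -1) :
    |LS (fun i : IV (Fin 4) k PA => i.1.1) (fun _ => 1 / 2 ^ k) (LV (ag c4)) NI U c (-1) u v| ≤
      1 := by
  classical
  rw [LS_eq U c hc]
  set A0 := (U.filter (fun i => i.1.1 = 0)).image (fun i => i.1.2) with hA0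
  set A := (U.filter (fun i => i.1.1 = c)).image (fun i => i.1.2) with hA
  have cA0 : A0.card = uV U 0 := card_imgV _ 0 (fun i hi => (Finset.mem_filter.1 hi).2)
  have cA : A.card = uV U c := card_imgV _ c (fun i hi => (Finset.mem_filter.1 hi).2)
  set W : Finset ((Fin k → Bool) × (Fin k → Bool)) :=
    univ.filter (fun a => ∀ b ∈ A0, hh k a b = 1) with hW
  have hadj : ag c4 c 0 = true := by rcases hc with rfl | rfl <;> decide
  have hAW : A ⊆ W := by
    intro a ha
    rw [hW, Finset.mem_filter]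
    refine ⟨mem_univ _, fun b hb => ?_⟩
    rw [hA, Finset.mem_image] at ha
    rw [hA0, Finset.mem_image] at hb
    obtain ⟨i, hi, rfl⟩ := ha
    obtain ⟨j, hj, rfl⟩ := hb
    rw [Finset.mem_filter] at hi hj
    exact orthoV agc_symm i j (by rw [hi.2, hj.2]; exact hadj) (hU i hi.1 j hj.1)
  have hWc : W.card * A0.card ≤ 4 ^ k := by
    apply lindsey
    intro a ha b hb
    exact (Finset.mem_filter.1 ha).2 b hb
  have hWA : W.card ≤ A.card := by
    rw [cA0] at hWc
    rw [cA]
    rw [← huc, mul_comm] at hWc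
    exact Nat.le_of_mul_le_mul_left hWc h0
  have hAeq : A = W := Finset.eq_of_subset_of_card_le hAW hWA
  have hclosed : ∀ a ∈ W, ∀ b ∈ W, xp a b ∈ W := by
    intro a ha b hb
    rw [hW, Finset.mem_filter]
    refine ⟨mem_univ _, fun d hd => ?_⟩
    rw [hh_xp, (Finset.mem_filter.1 ha).2 d hd, (Finset.mem_filter.1 hb).2 d hd, one_mul]
  have hq := quad_sum W hclosed (sq4 c u v) (sq4_or c hu hv) (sq4_mul c hu hv)
  have hl : W.card * (univ.filter (fun h => ∀ a ∈ W, hh k a h = 1)).card ≤ 4 ^ k := by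
    apply lindsey
    intro a ha b hb
    exact (Finset.mem_filter.1 hb).2 a ha
  have h5 : (∑ a ∈ W, sq4 c u v a) ^ 2 ≤ (2 ^ k) ^ 2 := by
    refine hq.trans ?_
    have : ((W.card * (univ.filter (fun h => ∀ a ∈ W, hh k a h = 1)).card : ℕ) : ℝ) ≤
        ((4 ^ k : ℕ) : ℝ) := by exact_mod_cast hl
    push_cast at this
    refine this.trans (le_of_eq ?_)
    rw [← pow_mul, mul_comm k 2, pow_mul]
    norm_num
  have hM : (0 : ℝ) < 2 ^ k := by positivity
  have h6 : |∑ a ∈ W, sq4 c u v a| ≤ 2 ^ k := abs_le_of_sq_le_sq h5 hM.le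
  rw [hAeq, abs_mul, abs_of_pos (by positivity : (0 : ℝ) < 1 / 2 ^ k), one_div, inv_mul_le_iff₀ hM,
    mul_one]
  exact h6

theorem num4 {a b c d m : ℕ} (hm : 0 < m) (hab : a * b ≤ m * m) (hac : a * c ≤ m * m)
    (had : a * d ≤ m * m) (hbc : b * c ≤ m * m) (hbd : b * d ≤ m * m) :
    a * b * (c * d) < m * m * (m * m) ∨ (a = b ∧ c = d ∧ a * c = m * m ∧ a ≤ m ∧ 0 < a) := by
  by_cases h : a * b * (c * d) < m * m * (m * m)
  · exact Or.inl h
  right
  push Not at h
  have hmm : 0 < m * m := Nat.mul_pos hm hm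
  have h4 : 0 < m * m * (m * m) := Nat.mul_pos hmm hmm
  have e1 : (a * c) * (b * d) = a * b * (c * d) := by ring
  have e2 : (a * d) * (b * c) = a * b * (c * d) := by ring
  have hac' : a * c = m * m := by
    by_contra hne
    have hlt : a * c < m * m := lt_of_le_of_ne hac hne
    have : (a * c) * (b * d) < m * m * (m * m) := by
      calc (a * c) * (b * d) ≤ (a * c) * (m * m) := Nat.mul_le_mul_left _ hbd
        _ < (m * m) * (m * m) := Nat.mul_lt_mul_of_pos_right hlt hmm
    omega
  have hbd' : b * d = m * m := by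
    by_contra hne
    have hlt : b * d < m * m := lt_of_le_of_ne hbd hne
    have : (a * c) * (b * d) < m * m * (m * m) := by
      rw [hac']
      exact Nat.mul_lt_mul_of_pos_left hlt hmm
    omega
  have hbc' : b * c = m * m := by
    by_contra hne
    have hlt : b * c < m * m := lt_of_le_of_ne hbc hne
    have : (a * d) * (b * c) < m * m * (m * m) := by
      calc (a * d) * (b * c) ≤ (m * m) * (b * c) := Nat.mul_le_mul_right _ had
        _ < (m * m) * (m * m) := Nat.mul_lt_mul_of_pos_left hlt hmm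
    omega
  have hc0 : 0 < c := Nat.pos_of_ne_zero (by rintro rfl; simp at hac'; omega)
  have ha0 : 0 < a := Nat.pos_of_ne_zero (by rintro rfl; simp at hac'; omega)
  have hb0 : 0 < b := Nat.pos_of_ne_zero (by rintro rfl; simp at hbc'; omega)
  have hab' : a = b := Nat.eq_of_mul_eq_mul_right hc0 (hac'.trans hbc'.symm)
  have hcd : c = d := by
    apply Nat.eq_of_mul_eq_mul_left hb0
    rw [hbc', hbd']
  refine ⟨hab', hcd, hac', ?_, ha0⟩
  subst hab'
  exact Nat.mul_self_le_mul_self_iff.mp hab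

/-- the coefficients -/
noncomputable def al (p : Finset (IV (Fin 4) k PA) × Bool) (c : Fin 4) : ℝ :=
  if p.2 = true ∧ (c = 2 ∨ c = 3) then ((uV p.1 c : ℝ) / 2 ^ k + 1) / 2 else (uV p.1 c : ℝ) / 2 ^ k

theorem al_nonneg (p : Finset (IV (Fin 4) k PA) × Bool) (c : Fin 4) : 0 ≤ al p c := by
  unfold al
  split_ifs <;> positivity

/-- a vector for every pair -/
theorem exists_vec (p : Finset (IV (Fin 4) k PA) × Bool) : ∃ t : Fin 4 → ℝ, (∀ j, 0 < t j) ∧
    1 < ∏ j, t j ∧ (∏ c, al p c < 1 → ∑ c, al p c * t c < 4) := by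
  by_cases h : ∏ c, al p c < 1
  · obtain ⟨t, ht1, ht2, ht3⟩ := exists_tV (al p) (al_nonneg p) h
    refine ⟨t, ht1, ht2, fun _ => ?_⟩
    simpa using ht3
  · refine ⟨fun _ => 2, fun _ => by norm_num, ?_, fun h1 => absurd h1 h⟩
    rw [Finset.prod_const, Finset.card_univ]
    exact one_lt_pow₀ (by norm_num) Fintype.card_ne_zero

theorem sum_clsV' (U : Finset (IV (Fin 4) k PA)) (t : Fin 4 → ℝ) :
    ∑ i ∈ U, 1 / 2 ^ k * t i.1.1 = ∑ c, al (U, false) c * t c := by
  rw [sum_clsV]
  apply Finset.sum_congr rfl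
  intro c _
  unfold al
  simp

theorem WS_eq (U : Finset (IV (Fin 4) k PA)) (c : Fin 4) :
    WS (fun i : IV (Fin 4) k PA => i.1.1) (fun _ => 1 / 2 ^ k) U c = (uV U c : ℝ) / 2 ^ k := by
  unfold WS uV
  rw [Finset.sum_const, nsmul_eq_mul]
  ring

end

end CmbF

open CmbF Pool.Agent.TH344.DT.CmbX Pool.Agent.TH344.JG.CmbV

theorem cmb4 : S_CMB4 := by
  classical
  intro k _
  have h4 : (4 : ℕ) ^ k = 2 ^ k * 2 ^ k := by rw [← mul_pow]; norm_num
  have hM : (0 : ℝ) < 2 ^ k := by positivity
  have hMn : 0 < 2 ^ k := by positivity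
  choose t ht1 ht2 ht3 using exists_vec (k := k)
  refine ⟨Finset.univ.image t, ?_, ?_, ?_⟩
  · intro s hs j
    obtain ⟨U, _, rfl⟩ := Finset.mem_image.1 hs
    exact ht1 U j
  · intro s hs
    obtain ⟨U, _, rfl⟩ := Finset.mem_image.1 hs
    exact ht2 U
  intro U hU
  -- small sets
  have hsmall : ∀ U' : Finset (IV (Fin 4) k PA),
      uV U' 0 * uV U' 1 * (uV U' 2 * uV U' 3) < 2 ^ k * 2 ^ k * (2 ^ k * 2 ^ k) →
      ∃ s ∈ Finset.univ.image t, ∑ i ∈ U', 1 / 2 ^ k * s i.1.1 < 4 := by
    intro U' hlt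
    refine ⟨t (U', false), Finset.mem_image_of_mem t (mem_univ _), ?_⟩
    rw [sum_clsV']
    apply ht3
    rw [Fin.prod_univ_four]
    unfold al
    simp only [Bool.false_eq_true, false_and, if_false]
    have h5 : ((uV U' 0 * uV U' 1 * (uV U' 2 * uV U' 3) : ℕ) : ℝ) <
        ((2 ^ k * 2 ^ k * (2 ^ k * 2 ^ k) : ℕ) : ℝ) := by exact_mod_cast hlt
    push_cast at h5
    have e : (uV U' 0 : ℝ) / 2 ^ k * ((uV U' 1 : ℝ) / 2 ^ k) * ((uV U' 2 : ℝ) / 2 ^ k) *
        ((uV U' 3 : ℝ) / 2 ^ k) = ((uV U' 0 : ℝ) * uV U' 1 * (uV U' 2 * uV U' 3)) /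
          (2 ^ k * 2 ^ k * (2 ^ k * 2 ^ k)) := by
      field_simp
    rw [e, div_lt_one (by positivity)]
    exact h5
  have hle : ∀ c c' : Fin 4, ag c4 c c' = true → uV U c * uV U c' ≤ 2 ^ k * 2 ^ k := by
    intro c c' hcc
    rw [← h4]
    exact uV_le agc_symm U hU c c' hcc
  rcases num4 hMn (hle 0 1 (by decide)) (hle 0 2 (by decide)) (hle 0 3 (by decide))
    (hle 1 2 (by decide)) (hle 1 3 (by decide)) with hlt | ⟨e01, e23, e02, h0m, h0pos⟩
  · -- small product
    left
    left
    exact hsmall U hlt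
  rcases Nat.lt_or_ge (uV U 0) (2 ^ k) with hlt | hge
  · -- critical
    right
    have hu2 : 2 ^ k < uV U 2 := by
      by_contra hcon
      push Not at hcon
      have : uV U 0 * uV U 2 < 2 ^ k * 2 ^ k := by
        calc uV U 0 * uV U 2 ≤ uV U 0 * 2 ^ k := Nat.mul_le_mul_left _ hcon
          _ < 2 ^ k * 2 ^ k := Nat.mul_lt_mul_of_pos_right hlt hMn
      omega
    have hpos : ∀ c : Fin 4, 0 < uV U c := by
      intro c
      have h2 : 0 < uV U 2 := by omega
      fin_cases c
      · exact h0pos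
      · change 0 < uV U 1
        rw [← e01]; exact h0pos
      · exact h2
      · change 0 < uV U 3
        rw [← e23]; exact h2
    have hprodU : uV U 0 * uV U 1 * (uV U 2 * uV U 3) = 2 ^ k * 2 ^ k * (2 ^ k * 2 ^ k) := by
      rw [← e01, ← e23, ← e02]; ring
    refine ⟨?_, ?_⟩
    · -- proper subsets
      intro U' hU'
      obtain ⟨hsub, i, hiU, hiU'⟩ := Finset.ssubset_iff_of_subset hU'.1 |>.1 hU' |> fun h =>
        (⟨hU'.1, h⟩ : U' ⊆ U ∧ ∃ i ∈ U, i ∉ U')
      apply hsmall
      rw [← hprodU]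
      have hmono : ∀ c, uV U' c ≤ uV U c := fun c =>
        Finset.card_le_card (Finset.filter_subset_filter _ hsub)
      have hstrict : uV U' i.1.1 < uV U i.1.1 := by
        apply Finset.card_lt_card
        rw [Finset.ssubset_iff_of_subset (Finset.filter_subset_filter _ hsub)]
        exact ⟨i, Finset.mem_filter.2 ⟨hiU, rfl⟩, fun h => hiU' (Finset.mem_filter.1 h).1⟩
      have e1 : ∀ V : Finset (IV (Fin 4) k PA), uV V 0 * uV V 1 * (uV V 2 * uV V 3) =
          ∏ c, uV V c := by
        intro V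
        rw [Fin.prod_univ_four]
        ring
      rw [e1, e1]
      by_cases hz : ∃ c, uV U' c = 0
      · obtain ⟨c, hc⟩ := hz
        rw [Finset.prod_eq_zero (mem_univ c) hc]
        exact Finset.prod_pos fun c _ => hpos c
      · push Not at hz
        exact Finset.prod_lt_prod (fun c _ => Nat.pos_of_ne_zero (hz c)) (fun c _ => hmono c)
          ⟨i.1.1, mem_univ _, hstrict⟩
    · -- the vector
      refine ⟨t (U, true), Finset.mem_image_of_mem t (mem_univ _), fun _ => 1, ?_, ?_, ?_⟩
      · intro c hc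
        refine ⟨zero_le_one, ?_⟩
        rw [WS_eq, le_div_iff₀ hM, one_mul]
        have h2 : 2 ^ k ≤ uV U c := by
          rw [Finset.mem_insert, Finset.mem_singleton] at hc
          rcases hc with rfl | rfl
          · exact hu2.le
          · rw [← e23]; exact hu2.le
        exact_mod_cast h2
      · intro c hc u v hu hv
        rw [Finset.mem_insert, Finset.mem_singleton] at hc
        refine LS_le U hU c hc h0pos ?_ u v hu hv
        rw [h4]
        rcases hc with rfl | rfl
        · exact e02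
        · rw [← e23]; exact e02
      · have hsum : ∑ i ∈ U.filter (fun i : IV (Fin 4) k PA => i.1.1 ∉ ({2, 3} : Finset (Fin 4))),
            1 / 2 ^ k * t (U, true) i.1.1 +
            ∑ c ∈ ({2, 3} : Finset (Fin 4)), t (U, true) c *
              ((WS (fun i : IV (Fin 4) k PA => i.1.1) (fun _ => 1 / 2 ^ k) U c + 1) / 2) =
            ∑ c, al (U, true) c * t (U, true) c := by
          have e1 : ∑ i ∈ U.filter (fun i : IV (Fin 4) k PA =>
              i.1.1 ∉ ({2, 3} : Finset (Fin 4))), 1 / 2 ^ k * t (U, true) i.1.1 =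
              (uV U 0 : ℝ) / 2 ^ k * t (U, true) 0 + (uV U 1 : ℝ) / 2 ^ k * t (U, true) 1 := by
            rw [sum_clsV, Fin.sum_univ_four]
            have f0 : uV (U.filter (fun i : IV (Fin 4) k PA =>
                i.1.1 ∉ ({2, 3} : Finset (Fin 4)))) 0 = uV U 0 := by
              unfold uV
              rw [Finset.filter_filter]
              congr 1
              apply Finset.filter_congr
              intro i _
              constructor
              · exact fun h => h.2
              · intro h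
                refine ⟨?_, h⟩
                rw [h]; decide
            have f1 : uV (U.filter (fun i : IV (Fin 4) k PA =>
                i.1.1 ∉ ({2, 3} : Finset (Fin 4)))) 1 = uV U 1 := by
              unfold uV
              rw [Finset.filter_filter]
              congr 1
              apply Finset.filter_congr
              intro i _
              constructor
              · exact fun h => h.2
              · intro h
                refine ⟨?_, h⟩
                rw [h]; decide
            have f2 : uV (U.filter (fun i : IV (Fin 4) k PA =>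
                i.1.1 ∉ ({2, 3} : Finset (Fin 4)))) 2 = 0 := by
              unfold uV
              rw [Finset.filter_filter, Finset.card_eq_zero, Finset.filter_eq_empty_iff]
              rintro i _ ⟨h1, h2⟩
              rw [h2] at h1
              exact h1 (by decide)
            have f3 : uV (U.filter (fun i : IV (Fin 4) k PA =>
                i.1.1 ∉ ({2, 3} : Finset (Fin 4)))) 3 = 0 := by
              unfold uV
              rw [Finset.filter_filter, Finset.card_eq_zero, Finset.filter_eq_empty_iff]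
              rintro i _ ⟨h1, h2⟩
              rw [h2] at h1
              exact h1 (by decide)
            rw [f0, f1, f2, f3]
            simp
          rw [e1, Fin.sum_univ_four, Finset.sum_pair (by decide), WS_eq, WS_eq]
          have a0 : al (U, true) 0 = (uV U 0 : ℝ) / 2 ^ k := by
            unfold al; rw [if_neg]; simp
          have a1 : al (U, true) 1 = (uV U 1 : ℝ) / 2 ^ k := by
            unfold al; rw [if_neg]; simp
          have a2 : al (U, true) 2 = ((uV U 2 : ℝ) / 2 ^ k + 1) / 2 := by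
            unfold al; rw [if_pos]; simp
          have a3 : al (U, true) 3 = ((uV U 3 : ℝ) / 2 ^ k + 1) / 2 := by
            unfold al; rw [if_pos]; simp
          rw [a0, a1, a2, a3]
          ring
        rw [hsum]
        apply ht3
        rw [Fin.prod_univ_four]
        have a0 : al (U, true) 0 = (uV U 0 : ℝ) / 2 ^ k := by
          unfold al; rw [if_neg]; simp
        have a1 : al (U, true) 1 = (uV U 0 : ℝ) / 2 ^ k := by
          unfold al; rw [if_neg]
          · rw [e01]
          · simp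
        have a2 : al (U, true) 2 = ((uV U 2 : ℝ) / 2 ^ k + 1) / 2 := by
          unfold al; rw [if_pos]; simp
        have a3 : al (U, true) 3 = ((uV U 2 : ℝ) / 2 ^ k + 1) / 2 := by
          unfold al; rw [if_pos]
          · rw [e23]
          · simp
        rw [a0, a1, a2, a3]
        set x := (uV U 0 : ℝ) / 2 ^ k with hx
        set y := (uV U 2 : ℝ) / 2 ^ k with hy
        have hxy : x * y = 1 := by
          rw [hx, hy, div_mul_div_comm, div_eq_one_iff_eq (by positivity)]
          exact_mod_cast e02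
        have hx0 : 0 < x := div_pos (by exact_mod_cast h0pos) hM
        have hx1 : x < 1 := by
          rw [hx, div_lt_one hM]
          exact_mod_cast hlt
        have e5 : x * x * ((y + 1) / 2) * ((y + 1) / 2) = ((x * y + x) / 2) ^ 2 := by ring
        rw [e5, hxy]
        have h6 : 0 < (1 + x) / 2 := by positivity
        have h7 : (1 + x) / 2 < 1 := by linarith
        nlinarith
  · -- all classes full
    left
    right
    have hu0 : uV U 0 = 2 ^ k := le_antisymm h0m hge
    have hu2 : uV U 2 = 2 ^ k := by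
      rw [hu0] at e02
      exact Nat.eq_of_mul_eq_mul_left hMn e02
    have hne : ∀ c, uV U c = 2 ^ k := by
      intro c
      fin_cases c
      · exact hu0
      · change uV U 1 = _
        rw [← e01]; exact hu0
      · exact hu2
      · change uV U 3 = _
        rw [← e23]; exact hu2
    have hcls : ∀ s : Fin 4 → ℝ, ∑ i ∈ U, 1 / 2 ^ k * s i.1.1 = ∑ c, s c := by
      intro s
      rw [sum_clsV]
      apply Finset.sum_congr rfl
      intro c _
      rw [hne c]
      push_cast
      rw [div_self hM.ne', one_mul]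
    refine ⟨?_, ?_, ?_⟩
    · have h5 := hcls (fun _ => 1)
      simp only [mul_one] at h5
      rw [h5]
      simp
    · intro s hs
      obtain ⟨W, _, rfl⟩ := Finset.mem_image.1 hs
      obtain ⟨θ, hθ, hlt⟩ := exists_thetaV (t W) (ht1 W) (ht2 W)
      refine ⟨θ, hθ, ?_⟩
      have h8 : ∑ i ∈ U, 1 / 2 ^ k * t W i.1.1 ^ (-θ) = ∑ c, t W c ^ (-θ) :=
        hcls (fun c => t W c ^ (-θ))
      rw [h8]
      simpa using hlt
    · intro j hj
      by_contra hcon
      push Not at hcon
      obtain ⟨c', hc'⟩ : ∃ c' : Fin 4, ag c4 j.1.1 c' = true := by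
        generalize j.1.1 = c
        revert c
        decide
      have h6 := pair_leV agc_symm (insert j (U.filter (fun i => i.1.1 = j.1.1)))
        (U.filter (fun i => i.1.1 = c')) j.1.1 c' hc' (by
          intro i hi
          rcases Finset.mem_insert.1 hi with rfl | hi
          · rfl
          · exact (Finset.mem_filter.1 hi).2) (fun i hi => (Finset.mem_filter.1 hi).2) (by
          intro i hi i' hi'
          rcases Finset.mem_insert.1 hi with rfl | hi
          · exact (hcon i' (Finset.mem_filter.1 hi').1).symm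
          · exact hU i (Finset.mem_filter.1 hi).1 i' (Finset.mem_filter.1 hi').1)
      rw [Finset.card_insert_of_notMem (by
        intro h7
        exact hj (Finset.mem_filter.1 h7).1)] at h6
      have e1 : (U.filter (fun i => i.1.1 = j.1.1)).card = 2 ^ k := hne j.1.1
      have e2 : (U.filter (fun i => i.1.1 = c')).card = 2 ^ k := hne c'
      rw [e1, e2, h4] at h6
      nlinarith

end Pool.Agent.T6.H30.TF
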