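import Pool.Agent.T6.H30.TF.Defs1
import Pool.Agent.W762.RK2.EXP4b

/-!
# Project TF, module REG
-/

set_option autoImplicit false

namespace Pool.Agent.T6.H30.TF

open Finset Pool.Agent.W262.RK Pool.Agent.W262.RK.AT

namespace ModREG

open Pool.Agent.W762.RK2 (Pr nb Dl Pr_prime nb_pf Ts prod_pf nb_dvd_PP Dl_mem lk)

section
variable {J ι : Type} [Fintype J] [DecidableEq J] [Fintype ι] [DecidableEq ι]
variable {z y : ℕ}

lemma Pr_gt (p : Pr z y) : z < (p : ℕ) := by
  have h := p.2
  unfold PS at h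
  exact (Finset.mem_Ioc.1 (Finset.mem_filter.1 h).1).1

/-- the reduced label -/
def ps (A : Finset ι) (cls : ι → J) (x : Option ι) : Option (ι ⊕ J) :=
  x.map fun i => if i ∈ A then Sum.inr (cls i) else Sum.inl i

/-- the symbols between the prime `q` with the reduced label `s` and the prime `p` with label `b` -/
noncomputable def ZZ (A : Finset ι) (L : ι → ι → Bool) (s : Option (ι ⊕ J)) (b : Option ι)
    (q p : ℕ) : ℝ :=
  s.elim 1 fun x => Sum.elim (fun i => b.elim 1 fun j =>
    (if L i j = true then Jr q p else 1) * (if j ∈ A ∧ L j i = true then Jr p q else 1))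
    (fun _ => 1) x

lemma prod_sym (A : Finset ι) (cls : ι → J) (L : ι → ι → Bool)
    (hA : ∀ i ∈ A, ∀ j ∈ A, L i j = false) (l : Pr z y → Option ι) :
    (∏ p : Pr z y, ∏ q : Pr z y, if lk L (l q) (l p) = true then Jr (q : ℕ) p else 1) =
      ∏ p : Pr z y, ∏ q : Pr z y, ZZ A L (ps A cls (l q)) (l p) q p := by
  -- the part with `l p` outside of `A` and `l q` in `A`
  set X : Option ι → Option ι → ℕ → ℕ → ℝ := fun a b q p =>
    if (∃ i ∈ A, a = some i) ∧ lk L a b = true then Jr q p else 1 with hX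
  set Y : Option ι → Option ι → ℕ → ℕ → ℝ := fun a b q p =>
    if (¬ ∃ i ∈ A, a = some i) ∧ lk L a b = true then Jr q p else 1 with hY
  have h1 : ∀ (a b : Option ι) (q p : ℕ), (if lk L a b = true then Jr q p else 1) =
      Y a b q p * X a b q p := by
    intro a b q p
    simp only [hX, hY]
    by_cases ha : ∃ i ∈ A, a = some i
    · by_cases hl : lk L a b = true
      · simp [ha, hl]
      · simp [ha, hl]
    · by_cases hl : lk L a b = true
      · simp [ha, hl]
      · simp [ha, hl]
  have h2 : ∀ (a b : Option ι) (q p : ℕ), Y a b q p * X b a p q = ZZ A L (ps A cls a) b q p := by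
    intro a b q p
    simp only [hX, hY, ZZ, ps]
    cases a with
    | none =>
      cases b <;> simp [Pool.Agent.W762.RK2.lk]
    | some i =>
      cases b with
      | none =>
        by_cases hi : i ∈ A
        · simp [Pool.Agent.W762.RK2.lk, hi]
        · simp [Pool.Agent.W762.RK2.lk, hi]
      | some j =>
        simp only [Pool.Agent.W762.RK2.lk, Option.elim_some, Option.map_some, Option.some.injEq,
          exists_eq_right']
        by_cases hi : i ∈ A
        · by_cases hj : j ∈ A
          · have e1 := hA i hi j hj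
            have e2 := hA j hj i hi
            simp [hi, e2]
          · simp [hi, hj]
        · by_cases hj : j ∈ A
          · simp [hi, hj]
          · simp [hi, hj]
  have h3 : (∏ p : Pr z y, ∏ q : Pr z y, X (l q) (l p) q p) =
      ∏ p : Pr z y, ∏ q : Pr z y, X (l p) (l q) p q := Finset.prod_comm
  simp only [h1, Finset.prod_mul_distrib]
  rw [h3]
  simp only [← Finset.prod_mul_distrib]
  exact Finset.prod_congr rfl fun p _ => Finset.prod_congr rfl fun q _ => h2 _ _ _ _

/-- the local factor -/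
noncomputable def GG (A : Finset ι) (w : ι → ℝ) (L : ι → ι → Bool) (κ : ι → ℤ) (c : ℕ)
    (τ : Pr z y → Option (ι ⊕ J)) (x : Option ι) (p : Pr z y) : ℝ :=
  (x.elim 1 fun i => w i / ((p : ℝ) - c)) * ((x.elim 1 fun i => Jr (κ i) p) *
    ∏ q : Pr z y, ZZ A L (τ q) x q p)

lemma Dl_cop (l : Pr z y → Option ι) : ∀ i j, i ≠ j → (Dl l i).Coprime (Dl l j) :=
  (Pool.Agent.W108.RK.mem_Tup.1 (Dl_mem l)).2

lemma HH_Dl (A : Finset ι) (cls : ι → J) (w : ι → ℝ) (L : ι → ι → Bool) (κ : ι → ℤ) (c : ℕ)
    (hA : ∀ i ∈ A, ∀ j ∈ A, L i j = false) (l : Pr z y → Option ι)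
    (τ : Pr z y → Option (ι ⊕ J)) (hτ : ∀ p, ps A cls (l p) = τ p) :
    HH w L κ c (Dl l) = ∏ p : Pr z y, GG A w L κ c τ (l p) p := by
  unfold HH
  rw [if_pos (Dl_cop l), Pool.Agent.W762.RK2.prod_gw, Pool.Agent.W762.RK2.Sym_Dl,
    prod_sym A cls L hA l]
  unfold GG
  simp only [hτ]
  rw [← Finset.prod_mul_distrib, ← Finset.prod_mul_distrib]
  refine Finset.prod_congr rfl fun p _ => ?_
  ring

lemma card_pf (l : Pr z y → Option ι) (i : ι) :
    (Dl l i).primeFactors.card = (univ.filter fun p : Pr z y => l p = some i).card := by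
  unfold Dl
  rw [nb_pf]
  unfold Ts
  rw [Finset.card_map]
  simp only [decide_eq_true_eq]

lemma nc_Dl (cls : ι → J) (l : Pr z y → Option ι) (j : J) :
    nc cls (Dl l) j = (univ.filter fun p : Pr z y => (l p).map cls = some j).card := by
  unfold nc
  simp only [card_pf]
  rw [← Finset.card_biUnion]
  · congr 1
    ext p
    simp only [Finset.mem_biUnion, Finset.mem_filter, Finset.mem_univ, true_and]
    constructor
    · rintro ⟨i, hi, hp⟩
      rw [hp, Option.map_some, hi]
    · intro h
      rw [Option.map_eq_some_iff] at h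
      obtain ⟨i, h1, h2⟩ := h
      exact ⟨i, h2, h1⟩
  · intro i _ i' _ hii
    rw [Function.onFun, Finset.disjoint_left]
    intro p hp hp'
    have e1 := (Finset.mem_filter.1 hp).2
    have e2 := (Finset.mem_filter.1 hp').2
    rw [e1] at e2
    exact hii (Option.some.inj e2)

lemma map_ps (A : Finset ι) (cls : ι → J) (x : Option ι) :
    (ps A cls x).map (Sum.elim cls id) = x.map cls := by
  unfold ps
  cases x with
  | none => rfl
  | some i =>
    simp only [Option.map_some]
    split_ifs <;> simp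

lemma prod_pow_card (t : J → ℝ) (f : Pr z y → Option J) :
    ∏ j, t j ^ (univ.filter fun p : Pr z y => f p = some j).card =
      ∏ p : Pr z y, (f p).elim 1 t := by
  have h1 : ∀ j, t j ^ (univ.filter fun p : Pr z y => f p = some j).card =
      ∏ p : Pr z y, if f p = some j then t j else 1 := by
    intro j
    rw [← Finset.prod_filter, Finset.prod_const]
  simp only [h1]
  rw [Finset.prod_comm]
  refine Finset.prod_congr rfl fun p _ => ?_
  cases h : f p with
  | none => simp
  | some j => simp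

lemma prod_Dl_K {κ' : Type} [Fintype κ'] [DecidableEq κ'] (K : κ' → ℕ → ℝ)
    (τ : Pr z y → Option κ') :
    ∏ x, ∏ p ∈ (Dl τ x).primeFactors, K x p = ∏ p : Pr z y, (τ p).elim 1 fun x => K x p := by
  have h1 : ∀ x, ∏ p ∈ (Dl τ x).primeFactors, K x p = ∏ p : Pr z y,
      if τ p = some x then K x p else 1 := by
    intro x
    unfold Dl
    rw [prod_pf _ (K x)]
    simp only [decide_eq_true_eq]
  rw [Finset.prod_congr rfl fun x _ => h1 x, Finset.prod_comm]
  refine Finset.prod_congr rfl fun p _ => ?_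
  cases h : τ p with
  | none => simp
  | some j => simp

lemma Jr_pm {a : ℤ} {p : ℕ} (hp : p.Prime) (h : ¬ (p : ℤ) ∣ a) : Jr a p = 1 ∨ Jr a p = -1 := by
  rw [Pool.Agent.W762.RK2.Jr_dvd_ne hp h]
  unfold Pool.Agent.W762.RK2.sg
  split_ifs
  · exact Or.inr rfl
  · exact Or.inl rfl

lemma Jr_prime_pm {q p : ℕ} (hq : q.Prime) (hp : p.Prime) (h : q ≠ p) :
    Jr (q : ℕ) p = 1 ∨ Jr (q : ℕ) p = -1 := by
  apply Jr_pm hp
  intro hd
  rw [Int.natCast_dvd_natCast] at hd
  exact h ((Nat.prime_dvd_prime_iff_eq hp hq).1 hd).symm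

lemma prod_pm {α : Type} (s : Finset α) (f : α → ℝ) (h : ∀ a ∈ s, f a = 1 ∨ f a = -1) :
    ∏ a ∈ s, f a = 1 ∨ ∏ a ∈ s, f a = -1 := by
  classical
  induction s using Finset.induction_on with
  | empty => exact Or.inl rfl
  | insert a s ha ih =>
    rw [Finset.prod_insert ha]
    have h1 := h a (Finset.mem_insert_self a s)
    have h2 := ih fun b hb => h b (Finset.mem_insert_of_mem hb)
    rcases h1 with h1 | h1 <;> rcases h2 with h2 | h2 <;> rw [h1, h2] <;> norm_num

lemma abs_ZZ_le (A : Finset ι) (L : ι → ι → Bool) (s : Option (ι ⊕ J)) (b : Option ι)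
    (q p : ℕ) : |ZZ A L s b q p| ≤ 1 := by
  unfold ZZ
  rcases s with _ | (i | j)
  · simp
  · rcases b with _ | j
    · simp
    · simp only [Option.elim_some, Sum.elim_inl]
      rw [abs_mul]
      have h1 : |if L i j = true then Jr q p else 1| ≤ 1 := by
        split_ifs
        · exact abs_Jr_le _ _
        · simp
      have h2 : |if j ∈ A ∧ L j i = true then Jr p q else 1| ≤ 1 := by
        split_ifs
        · exact abs_Jr_le _ _
        · simp
      exact mul_le_one₀ h1 (abs_nonneg _) h2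
  · simp

lemma prod_ZZ (A : Finset ι) (L : ι → ι → Bool) (τ : Pr z y → Option (ι ⊕ J)) (j : ι)
    (hj : j ∈ A) (p : ℕ) :
    ∏ q : Pr z y, ZZ A L (τ q) (some j) q p =
      ∏ i, ((if L i j = true then (∏ q : Pr z y, if τ q = some (Sum.inl i) then Jr (q : ℕ) p else 1)
        else 1) * (if L j i = true then (∏ q : Pr z y, if τ q = some (Sum.inl i) then
          Jr (p : ℕ) q else 1) else 1)) := by
  have h1 : ∀ i, ((if L i j = true then (∏ q : Pr z y, if τ q = some (Sum.inl i) then
        Jr (q : ℕ) p else 1) else 1) * (if L j i = true then (∏ q : Pr z y,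
        if τ q = some (Sum.inl i) then Jr (p : ℕ) q else 1) else 1)) =
      ∏ q : Pr z y, if τ q = some (Sum.inl i) then (if L i j = true then Jr (q : ℕ) p else 1) *
        (if L j i = true then Jr (p : ℕ) q else 1) else 1 := by
    intro i
    by_cases e1 : L i j = true
    · by_cases e2 : L j i = true
      · simp only [e1, e2, if_true]
        rw [← Finset.prod_mul_distrib]
        refine Finset.prod_congr rfl fun q _ => ?_
        split_ifs <;> simp
      · simp only [e1, e2, if_true, mul_one]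
        simp
    · by_cases e2 : L j i = true
      · simp only [e1, e2, if_true, one_mul]
        simp
      · simp [e1, e2]
  rw [Finset.prod_congr rfl fun i _ => h1 i, Finset.prod_comm]
  refine Finset.prod_congr rfl fun q _ => ?_
  unfold ZZ
  rcases h : τ q with _ | (i | c)
  · simp
  · simp only [Option.elim_some, Sum.elim_inl, hj, true_and, Option.some.injEq, Sum.inl.injEq]
    rw [Finset.prod_ite_eq univ i]
    simp
  · simp


/-- bound of the local sums -/
noncomputable def hb (A : Finset ι) (w : ι → ℝ) (D : Finset J) (W β : J → ℝ) (c : ℕ) (x : ι ⊕ J)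
    (p : ℕ) : ℝ :=
  Sum.elim (fun i => if i ∈ A then 0 else w i / ((p : ℝ) - c))
    (fun j => if j ∈ D then (if p % 4 = 1 then W j else β j) / ((p : ℝ) - c) else 0) x

lemma sub_pos' {c : ℕ} (hz2 : 2 ≤ z) (hc : 2 * c ≤ z) (p : Pr z y) : (0 : ℝ) < (p : ℝ) - c := by
  have h1 := Pr_gt p
  have h2 : c < (p : ℕ) := by omega
  have h3 : (c : ℝ) < ((p : ℕ) : ℝ) := by exact_mod_cast h2
  linarith

lemma Jr_kappa {p : Pr z y} {k : ℤ} (hk : k.natAbs ≤ z) {N : Bool} {m : ℤ} (hm : m ≠ 0)
    (h : k = (if N = true then -1 else 1) * m ^ 2) :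
    Jr k p = if N = true then Jr (-1) p else 1 := by
  have hp := Pr_prime p
  have hnd : ¬ ((p : ℕ) : ℤ) ∣ m := by
    intro hd
    have h1 : ((p : ℕ) : ℤ) ∣ k := by
      rw [h]
      exact Dvd.dvd.mul_left (dvd_pow hd (by norm_num)) _
    rw [Int.natCast_dvd] at h1
    have hk0 : k ≠ 0 := by
      rw [h]
      refine mul_ne_zero ?_ (pow_ne_zero _ hm)
      split_ifs <;> norm_num
    have h2 := Nat.le_of_dvd (Int.natAbs_pos.2 hk0) h1
    have := Pr_gt p
    omega
  have h1 : Jr (m ^ 2) p = 1 := by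
    rw [pow_two, Pool.Agent.W108.RK.Jr_mul_left]
    rcases Jr_pm hp hnd with h2 | h2 <;> rw [h2] <;> norm_num
  rw [h, Pool.Agent.W108.RK.Jr_mul_left, h1, mul_one]
  split_ifs
  · rfl
  · exact Pool.Agent.W108.RK.Jr_one_left _

lemma abs_LS_le (cls : ι → J) (w : ι → ℝ) (L : ι → ι → Bool) (N : ι → Bool) (U : Finset ι) (c : J)
    (hw : ∀ i, 0 < w i) (u v : ι → ℝ)
    (hu : ∀ i, u i = 1 ∨ u i = -1) (hv : ∀ i, v i = 1 ∨ v i = -1) :
    |LS cls w L N U c 1 u v| ≤ WS cls w U c := by
  unfold LS WS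
  refine (Finset.abs_sum_le_sum_abs _ _).trans (Finset.sum_le_sum fun j _ => ?_)
  rw [abs_mul, abs_of_pos (hw j)]
  refine mul_le_of_le_one_right (hw j).le ?_
  rw [ite_self, one_mul]
  refine abs_prod_le_one _ _ fun i _ => ?_
  rw [abs_mul]
  have h1 : |if L i j = true then u i else 1| ≤ 1 := by
    split_ifs
    · rcases hu i with h | h <;> rw [h] <;> simp
    · simp
  have h2 : |if L j i = true then v i else 1| ≤ 1 := by
    split_ifs
    · rcases hv i with h | h <;> rw [h] <;> simp
    · simp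
  exact mul_le_one₀ h1 (abs_nonneg _) h2

lemma local_bound (cls : ι → J) (w : ι → ℝ) (L : ι → ι → Bool) (κ : ι → ℤ) (N : ι → Bool)
    (c : ℕ) (D : Finset J) (U : Finset ι) (β : J → ℝ) (A : Finset ι)
    (hA : A = univ.filter fun b => b ∈ U ∧ cls b ∈ D)
    (hw : ∀ i, 0 < w i) (hz2 : 2 ≤ z) (hc : 2 * c ≤ z) (hκ : ∀ i, (κ i).natAbs ≤ z)
    (hK : KK cls κ N D)
    (hβ : ∀ c' ∈ D, ∀ u v : ι → ℝ, (∀ i, u i = 1 ∨ u i = -1) → (∀ i, v i = 1 ∨ v i = -1) →
      |LS cls w L N U c' (-1) u v| ≤ β c')
    (τ : Pr z y → Option (ι ⊕ J)) (p : Pr z y) :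
    |∑ x ∈ univ.filter (fun x => ps A cls x = τ p), GG A w L κ c τ x p| ≤
      (τ p).elim 1 fun x => hb A w D (WS cls w U) β c x p := by
  have hpos := sub_pos' hz2 hc p
  have hmA : ∀ i, i ∈ A ↔ i ∈ U ∧ cls i ∈ D := by
    intro i; rw [hA]; simp
  rcases hτ : τ p with _ | (i | c')
  · have h1 : (univ.filter fun x => ps A cls x = (none : Option (ι ⊕ J))) = {none} := by
      ext x
      rw [Finset.mem_filter, Finset.mem_singleton]
      unfold ps
      rw [Option.map_eq_none_iff]
      simp
    rw [h1, Finset.sum_singleton]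
    unfold GG
    have h2 : ∀ q : Pr z y, ZZ A L (τ q) none q p = 1 := by
      intro q
      unfold ZZ
      rcases τ q with _ | (i | j) <;> simp
    simp [h2]
  · simp only [Option.elim_some, hb, Sum.elim_inl]
    by_cases hi : i ∈ A
    · rw [if_pos hi]
      have h1 : (univ.filter fun x => ps A cls x = some (Sum.inl i)) = ∅ := by
        ext x
        rw [Finset.mem_filter]
        unfold ps
        simp only [Finset.mem_univ, true_and, Option.map_eq_some_iff, Finset.notMem_empty, iff_false]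
        rintro ⟨a, _, ha⟩
        split_ifs at ha with h2
        rw [Sum.inl.injEq] at ha
        rw [ha] at h2
        exact h2 hi
      rw [h1]
      simp
    · rw [if_neg hi]
      have h1 : (univ.filter fun x => ps A cls x = some (Sum.inl i)) = {some i} := by
        ext x
        rw [Finset.mem_filter, Finset.mem_singleton]
        unfold ps
        simp only [Finset.mem_univ, true_and, Option.map_eq_some_iff]
        constructor
        · rintro ⟨a, hx, ha⟩
          split_ifs at ha with h2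
          rw [Sum.inl.injEq] at ha
          rw [hx, ha]
        · rintro rfl
          exact ⟨i, rfl, by rw [if_neg hi]⟩
      rw [h1, Finset.sum_singleton]
      unfold GG
      simp only [Option.elim_some]
      rw [abs_mul, abs_of_nonneg (div_nonneg (hw i).le hpos.le)]
      refine mul_le_of_le_one_right (div_nonneg (hw i).le hpos.le) ?_
      rw [abs_mul]
      refine mul_le_one₀ (abs_Jr_le _ _) (abs_nonneg _) ?_
      exact abs_prod_le_one _ _ fun q _ => abs_ZZ_le _ _ _ _ _ _
  · simp only [Option.elim_some, hb, Sum.elim_inr]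
    by_cases hD : c' ∈ D
    · rw [if_pos hD]
      have h1 : (univ.filter fun x => ps A cls x = some (Sum.inr c')) =
          (U.filter fun j => cls j = c').map Function.Embedding.some := by
        ext x
        rw [Finset.mem_filter, Finset.mem_map]
        unfold ps
        simp only [Finset.mem_univ, true_and, Option.map_eq_some_iff, Finset.mem_filter,
          Function.Embedding.some_apply]
        constructor
        · rintro ⟨a, hx, ha⟩
          split_ifs at ha with h2
          rw [Sum.inr.injEq] at ha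
          exact ⟨a, ⟨((hmA a).1 h2).1, ha⟩, hx.symm⟩
        · rintro ⟨a, ⟨h2, h3⟩, rfl⟩
          refine ⟨a, rfl, ?_⟩
          rw [if_pos ((hmA a).2 ⟨h2, by rw [h3]; exact hD⟩), h3]
      rw [h1, Finset.sum_map]
      set u : ι → ℝ := fun i => ∏ q : Pr z y, if τ q = some (Sum.inl i) then Jr (q : ℕ) p else 1
        with hu
      set v : ι → ℝ := fun i => ∏ q : Pr z y, if τ q = some (Sum.inl i) then Jr (p : ℕ) q else 1
        with hv
      have hne : ∀ (i : ι) (q : Pr z y), τ q = some (Sum.inl i) → (q : ℕ) ≠ p := by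
        intro i q hq hqp
        have h2 : q = p := Subtype.ext hqp
        rw [h2, hτ] at hq
        simp at hq
      have hu1 : ∀ i, u i = 1 ∨ u i = -1 := by
        intro i
        refine prod_pm _ _ fun q _ => ?_
        split_ifs with hq
        · exact Jr_prime_pm (Pr_prime q) (Pr_prime p) (hne i q hq)
        · exact Or.inl rfl
      have hv1 : ∀ i, v i = 1 ∨ v i = -1 := by
        intro i
        refine prod_pm _ _ fun q _ => ?_
        split_ifs with hq
        · exact Jr_prime_pm (Pr_prime p) (Pr_prime q) (hne i q hq).symm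
        · exact Or.inl rfl
      have h2 : ∑ x ∈ U.filter (fun j => cls j = c'),
            GG A w L κ c τ (Function.Embedding.some x) p =
          LS cls w L N U c' (Jr (-1) p) u v / ((p : ℝ) - c) := by
        unfold LS
        rw [Finset.sum_div]
        refine Finset.sum_congr rfl fun j hj => ?_
        obtain ⟨hj1, hj2⟩ := Finset.mem_filter.1 hj
        have hjA : j ∈ A := (hmA j).2 ⟨hj1, by rw [hj2]; exact hD⟩
        unfold GG
        simp only [Function.Embedding.some_apply, Option.elim_some]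
        obtain ⟨m, hm, hm2⟩ := hK j (by rw [hj2]; exact hD)
        rw [prod_ZZ A L τ j hjA p, Jr_kappa (hκ j) hm hm2]
        ring
      rw [h2, abs_div, abs_of_pos hpos]
      refine div_le_div_of_nonneg_right ?_ hpos.le
      have hp := Pr_prime p
      have hpg := Pr_gt p
      have hodd : Odd (p : ℕ) := hp.odd_of_ne_two (by omega)
      have hJ : Jr (-1) p = ((ZMod.χ₄ ((p : ℕ) : ZMod 4) : ℤ) : ℝ) := by
        unfold Jr
        rw [jacobiSym.at_neg_one hodd]
      by_cases h4 : (p : ℕ) % 4 = 1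
      · rw [if_pos h4, hJ, ZMod.χ₄_nat_one_mod_four h4, Int.cast_one]
        exact abs_LS_le cls w L N U c' hw u v hu1 hv1
      · rw [if_neg h4]
        have h5 : (p : ℕ) % 4 = 3 := by
          rcases Nat.odd_iff.1 hodd with h6
          omega
        rw [hJ, ZMod.χ₄_nat_three_mod_four h5, Int.cast_neg, Int.cast_one]
        exact hβ c' hD u v hu1 hv1
    · rw [if_neg hD]
      have h1 : (univ.filter fun x => ps A cls x = some (Sum.inr c')) = ∅ := by
        ext x
        rw [Finset.mem_filter]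
        unfold ps
        simp only [Finset.mem_univ, true_and, Option.map_eq_some_iff, Finset.notMem_empty, iff_false]
        rintro ⟨a, _, ha⟩
        split_ifs at ha with h2
        rw [Sum.inr.injEq] at ha
        rw [← ha] at hD
        exact hD ((hmA a).1 h2).2
      rw [h1]
      simp

/-- the condition on the labelling -/
def Cd (A : Finset ι) (S : ι → Finset ℕ) (d : ι ⊕ J → ℕ) : Prop := ∀ b, b ∉ A → d (Sum.inl b) ∈ S b

lemma Dl_ps (A : Finset ι) (cls : ι → J) (l : Pr z y → Option ι) (b : ι) (hb : b ∉ A) :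
    Dl (fun p => ps A cls (l p)) (Sum.inl b) = Dl l b := by
  unfold Dl
  congr 1
  funext p
  apply decide_eq_decide.2
  unfold ps
  rw [Option.map_eq_some_iff]
  constructor
  · rintro ⟨a, hx, ha⟩
    split_ifs at ha with h2
    rw [Sum.inl.injEq] at ha
    rw [hx, ha]
  · intro h
    exact ⟨b, h, by rw [if_neg hb]⟩


open Classical in
/-- from tuples to labellings -/
lemma step1 (cls : ι → J) (w : ι → ℝ) (L : ι → ι → Bool) (κ : ι → ℤ) (c : ℕ)
    (φ : (J → ℕ) → ℝ) (S : ι → Finset ℕ) (A : Finset ι) (hS : ∀ i, S i ⊆ (PP z y).divisors) :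
    ∑ d ∈ Fintype.piFinset (fun b => if b ∈ A then (PP z y).divisors else S b),
      HH w L κ c d * φ (nc cls d) =
    ∑ l : Pr z y → Option ι, if ∀ b, b ∉ A → Dl l b ∈ S b then
      HH w L κ c (Dl l) * φ (nc cls (Dl l)) else 0 := by
  rw [← Pool.Agent.W762.RK2.sum_Tup (z := z) (y := y) fun d =>
    if ∀ b, b ∉ A → d b ∈ S b then HH w L κ c d * φ (nc cls d) else 0]
  rw [← Finset.sum_filter]
  symm
  apply Finset.sum_subset
  · intro d hd
    obtain ⟨h1, h2⟩ := Finset.mem_filter.1 hd
    obtain ⟨h3, _⟩ := Pool.Agent.W108.RK.mem_Tup.1 h1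
    rw [Fintype.mem_piFinset]
    intro b
    by_cases hb : b ∈ A
    · rw [if_pos hb]
      exact Nat.mem_divisors.2 ⟨h3 b, PP_ne_zero z y⟩
    · rw [if_neg hb]
      exact h2 b hb
  · intro d hd hd2
    rw [Fintype.mem_piFinset] at hd
    have h1 : ∀ b, d b ∣ PP z y := by
      intro b
      have := hd b
      by_cases hb : b ∈ A
      · rw [if_pos hb] at this
        exact (Nat.mem_divisors.1 this).1
      · rw [if_neg hb] at this
        exact (Nat.mem_divisors.1 (hS b this)).1
    have h2 : ∀ b, b ∉ A → d b ∈ S b := by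
      intro b hb
      have := hd b
      rwa [if_neg hb] at this
    have h3 : ¬ ∀ i j, i ≠ j → (d i).Coprime (d j) := by
      intro hcop
      apply hd2
      exact Finset.mem_filter.2 ⟨Pool.Agent.W108.RK.mem_Tup.2 ⟨h1, hcop⟩, h2⟩
    unfold HH
    rw [if_neg h3, zero_mul]

open Classical in
/-- the sum over the fibres -/
lemma step2 (cls : ι → J) (w : ι → ℝ) (L : ι → ι → Bool) (κ : ι → ℤ) (N : ι → Bool)
    (c : ℕ) (D : Finset J) (U : Finset ι) (t : J → ℝ) (β : J → ℝ) (φ : (J → ℕ) → ℝ)
    (S : ι → Finset ℕ) (A : Finset ι)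
    (hA : A = univ.filter fun b => b ∈ U ∧ cls b ∈ D)
    (hw : ∀ i, 0 < w i) (hz2 : 2 ≤ z) (hc : 2 * c ≤ z) (hκ : ∀ i, (κ i).natAbs ≤ z)
    (hK : KK cls κ N D) (hL : LD cls L D)
    (hβ : ∀ c' ∈ D, ∀ u v : ι → ℝ, (∀ i, u i = 1 ∨ u i = -1) → (∀ i, v i = 1 ∨ v i = -1) →
      |LS cls w L N U c' (-1) u v| ≤ β c')
    (hφ : ∀ n, 0 ≤ φ n ∧ φ n ≤ ∏ j, t j ^ n j) :
    |∑ l : Pr z y → Option ι, if ∀ b, b ∉ A → Dl l b ∈ S b then
      HH w L κ c (Dl l) * φ (nc cls (Dl l)) else 0| ≤
    ∑ τ : Pr z y → Option (ι ⊕ J), if Cd A S (Dl τ) then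
      ∏ p : Pr z y, (τ p).elim 1 (fun x => hb A w D (WS cls w U) β c x p *
        Sum.elim (fun i => t (cls i)) t x) else 0 := by
  have hAL : ∀ i ∈ A, ∀ j ∈ A, L i j = false := by
    intro i hi j hj
    rw [hA] at hi hj
    exact hL i j (Finset.mem_filter.1 hi).2.2 (Finset.mem_filter.1 hj).2.2
  rw [← Finset.sum_fiberwise univ (fun l : Pr z y → Option ι => fun p => ps A cls (l p))]
  refine (Finset.abs_sum_le_sum_abs _ _).trans (Finset.sum_le_sum fun τ _ => ?_)
  set n : J → ℕ := fun j => (univ.filter fun p : Pr z y =>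
    (τ p).map (Sum.elim cls id) = some j).card with hn
  have h1 : ∀ l ∈ univ.filter (fun l : Pr z y → Option ι => (fun p => ps A cls (l p)) = τ),
      (if ∀ b, b ∉ A → Dl l b ∈ S b then HH w L κ c (Dl l) * φ (nc cls (Dl l)) else 0) =
      if Cd A S (Dl τ) then (∏ p : Pr z y, GG A w L κ c τ (l p) p) * φ n else 0 := by
    intro l hl
    have hl2 := (Finset.mem_filter.1 hl).2
    have e1 : (∀ b, b ∉ A → Dl l b ∈ S b) ↔ Cd A S (Dl τ) := by
      unfold Cd
      refine forall_congr' fun b => forall_congr' fun hb' => ?_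
      rw [← hl2, Dl_ps A cls l b hb']
    have e2 : nc cls (Dl l) = n := by
      funext j
      rw [nc_Dl, hn]
      simp only [← hl2, map_ps]
    rw [HH_Dl A cls w L κ c hAL l τ (fun p => congrFun hl2 p), e2]
    exact if_congr e1 rfl rfl
  rw [Finset.sum_congr rfl h1]
  by_cases hC : Cd A S (Dl τ)
  · simp only [if_pos hC]
    rw [← Finset.sum_mul, abs_mul, abs_of_nonneg (hφ n).1]
    have h2 : univ.filter (fun l : Pr z y → Option ι => (fun p => ps A cls (l p)) = τ) =
        Fintype.piFinset fun p => univ.filter fun x => ps A cls x = τ p := by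
      ext l
      simp only [Finset.mem_filter, Finset.mem_univ, true_and, Fintype.mem_piFinset]
      exact funext_iff
    have h2' : ∑ l ∈ Fintype.piFinset (fun p : Pr z y => univ.filter fun x => ps A cls x = τ p),
        ∏ p : Pr z y, GG A w L κ c τ (l p) p =
        ∏ p : Pr z y, ∑ x ∈ univ.filter (fun x => ps A cls x = τ p), GG A w L κ c τ x p :=
      (Finset.prod_univ_sum (fun p : Pr z y => univ.filter fun x => ps A cls x = τ p)
        (fun p x => GG A w L κ c τ x p)).symm
    rw [h2, h2', Finset.abs_prod]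
    have h3 : ∏ p : Pr z y, |∑ x ∈ univ.filter (fun x => ps A cls x = τ p),
        GG A w L κ c τ x p| ≤
        ∏ p : Pr z y, (τ p).elim 1 fun x => hb A w D (WS cls w U) β c x p :=
      Finset.prod_le_prod (fun p _ => abs_nonneg _) fun p _ =>
        local_bound cls w L κ N c D U β A hA hw hz2 hc hκ hK hβ τ p
    have h4 : φ n ≤ ∏ p : Pr z y, ((τ p).map (Sum.elim cls id)).elim 1 t := by
      rw [← prod_pow_card]
      exact (hφ n).2
    refine (mul_le_mul h3 h4 (hφ n).1 ((Finset.prod_nonneg fun p _ => abs_nonneg _).trans h3)).trans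
      (le_of_eq ?_)
    rw [← Finset.prod_mul_distrib]
    refine Finset.prod_congr rfl fun p _ => ?_
    rcases τ p with _ | (i | j) <;> simp
  · simp only [if_neg hC, Finset.sum_const_zero, abs_zero]
    exact le_rfl

lemma gw_mul' (w τ : ℝ) (c m : ℕ) :
    ∏ p ∈ m.primeFactors, (w / ((p : ℝ) - c) * τ) = gw (w * τ) c m := by
  unfold gw
  refine Finset.prod_congr rfl fun p _ => ?_
  ring

lemma sum_zero_prod (P : ℕ) (hP : P ≠ 0) :
    ∑ m ∈ P.divisors, ∏ p ∈ m.primeFactors, (0 : ℝ) = 1 := by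
  rw [Finset.sum_eq_single 1]
  · simp
  · intro m hm hm1
    have hm0 : m ≠ 0 := (Nat.pos_of_mem_divisors hm).ne'
    obtain ⟨p, hp, hpm⟩ := Nat.exists_prime_and_dvd hm1
    exact Finset.prod_eq_zero (Nat.mem_primeFactors.2 ⟨hp, hpm, hm0⟩) rfl
  · intro h
    exact absurd (Nat.mem_divisors.2 ⟨one_dvd _, hP⟩) h

open Classical in
/-- the final sum -/
lemma step3 (cls : ι → J) (w : ι → ℝ) (c : ℕ) (D : Finset J) (W : J → ℝ) (t : J → ℝ) (β : J → ℝ)
    (S : ι → Finset ℕ) (A : Finset ι) (hw : ∀ i, 0 < w i) (hz2 : 2 ≤ z) (hc : 2 * c ≤ z)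
    (ht : ∀ j, 0 < t j) (hβ : ∀ c' ∈ D, 0 ≤ β c' ∧ β c' ≤ W c')
    (hS : ∀ i, S i ⊆ (PP z y).divisors) :
    (∑ τ : Pr z y → Option (ι ⊕ J), if Cd A S (Dl τ) then
      ∏ p : Pr z y, (τ p).elim 1 (fun x => hb A w D W β c x p *
        Sum.elim (fun i => t (cls i)) t x) else 0) ≤
    (∏ b ∈ univ.filter (fun b => ¬ (b ∈ A)), ∑ m ∈ S b, gw (w b * t (cls b)) c m) *
      ∏ c' ∈ D, ∑ s ∈ (PP z y).divisors, gab (t c' * W c') (t c' * β c') c s := by
  set K : ι ⊕ J → ℕ → ℝ := fun x p => hb A w D W β c x p * Sum.elim (fun i => t (cls i)) t x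
    with hKdef
  set g : ι ⊕ J → ℕ → ℝ := fun x m => ∏ p ∈ m.primeFactors, K x p with hg
  have hK0 : ∀ x, ∀ p ∈ PS z y, 0 ≤ K x p := by
    intro x p hp
    have hpos := sub_pos' hz2 hc (⟨p, hp⟩ : Pr z y)
    simp only at hpos
    simp only [hKdef]
    rcases x with i | j
    · simp only [hb, Sum.elim_inl]
      refine mul_nonneg ?_ (ht _).le
      split_ifs
      · exact le_rfl
      · exact div_nonneg (hw i).le hpos.le
    · simp only [hb, Sum.elim_inr]
      refine mul_nonneg ?_ (ht _).le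
      split_ifs with h1 h2
      · exact div_nonneg ((hβ j h1).1.trans (hβ j h1).2) hpos.le
      · exact div_nonneg (hβ j h1).1 hpos.le
      · exact le_rfl
  have hg0 : ∀ x, ∀ m ∈ (PP z y).divisors, 0 ≤ g x m := by
    intro x m hm
    refine Finset.prod_nonneg fun p hp => hK0 x p ?_
    rw [← PP_primeFactors z y]
    exact Nat.primeFactors_mono (Nat.mem_divisors.1 hm).1 (PP_ne_zero z y) hp
  have h1 : ∀ τ : Pr z y → Option (ι ⊕ J), (∏ p : Pr z y, (τ p).elim 1 fun x => K x p) =
      ∏ x, g x (Dl τ x) := fun τ => (prod_Dl_K K τ).symm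
  change (∑ τ : Pr z y → Option (ι ⊕ J), if Cd A S (Dl τ) then
    ∏ p : Pr z y, (τ p).elim 1 (fun x => K x p) else 0) ≤ _
  simp only [h1]
  rw [← Pool.Agent.W762.RK2.sum_Tup (z := z) (y := y) fun d =>
    if Cd A S d then ∏ x, g x (d x) else 0, ← Finset.sum_filter]
  set S' : ι ⊕ J → Finset ℕ := Sum.elim (fun b => if b ∈ A then (PP z y).divisors else S b)
    (fun _ => (PP z y).divisors) with hS'
  have hS'sub : ∀ x, S' x ⊆ (PP z y).divisors := by
    rintro (b | j)
    · simp only [hS', Sum.elim_inl]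
      split_ifs
      · exact Finset.Subset.refl _
      · exact hS b
    · simp only [hS', Sum.elim_inr]
      exact Finset.Subset.refl _
  have h2 : ∑ d ∈ (Tup (ι ⊕ J) z y).filter (fun d => Cd A S d), ∏ x, g x (d x) ≤
      ∑ d ∈ Fintype.piFinset S', ∏ x, g x (d x) := by
    apply Finset.sum_le_sum_of_subset_of_nonneg
    · intro d hd
      obtain ⟨h3, h4⟩ := Finset.mem_filter.1 hd
      obtain ⟨h5, _⟩ := Pool.Agent.W108.RK.mem_Tup.1 h3
      rw [Fintype.mem_piFinset]
      rintro (b | j)
      · simp only [hS', Sum.elim_inl]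
        by_cases hb' : b ∈ A
        · rw [if_pos hb']
          exact Nat.mem_divisors.2 ⟨h5 _, PP_ne_zero z y⟩
        · rw [if_neg hb']
          exact h4 b hb'
      · simp only [hS', Sum.elim_inr]
        exact Nat.mem_divisors.2 ⟨h5 _, PP_ne_zero z y⟩
    · intro d hd _
      rw [Fintype.mem_piFinset] at hd
      exact Finset.prod_nonneg fun x _ => hg0 x _ (hS'sub x (hd x))
  refine h2.trans (le_of_eq ?_)
  rw [← Finset.prod_univ_sum, Fintype.prod_sum_type]
  congr 1
  · rw [Finset.prod_filter]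
    refine Finset.prod_congr rfl fun b _ => ?_
    by_cases hb' : b ∈ A
    · rw [if_neg (not_not.2 hb')]
      simp only [hS', Sum.elim_inl, if_pos hb', hg, hKdef, hb, zero_mul]
      exact sum_zero_prod _ (PP_ne_zero z y)
    · rw [if_pos hb']
      simp only [hS', Sum.elim_inl, if_neg hb', hg, hKdef, hb]
      refine Finset.sum_congr rfl fun m _ => gw_mul' _ _ _ _
  · rw [← Finset.prod_subset (Finset.subset_univ D)]
    · refine Finset.prod_congr rfl fun j hj => ?_
      simp only [hS', Sum.elim_inr, hg, hKdef, hb, if_pos hj]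
      refine Finset.sum_congr rfl fun m _ => ?_
      unfold gab
      refine Finset.prod_congr rfl fun p _ => ?_
      split_ifs <;> ring
    · intro j _ hj
      simp only [hS', Sum.elim_inr, hg, hKdef, hb, if_neg hj, zero_mul]
      exact sum_zero_prod _ (PP_ne_zero z y)

end

end ModREG

theorem reg : S_REG := by
  intro J ι _ _ _ _ cls w L κ N c z y D U t β φ S hw hz2 hc hκ hK hL ht hβ hLS hφ hS
  set A : Finset ι := univ.filter fun b => b ∈ U ∧ cls b ∈ D with hA
  have h0 : ∀ b, b ∈ A ↔ (b ∈ U ∧ cls b ∈ D) := by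
    intro b; rw [hA]; simp
  have h1 := ModREG.step1 (z := z) (y := y) cls w L κ c φ S A hS
  have h2 := ModREG.step2 (z := z) (y := y) cls w L κ N c D U t β φ S A hA hw hz2 hc hκ hK hL
    hLS hφ
  have h3 := ModREG.step3 (z := z) (y := y) cls w c D (WS cls w U) t β S A hw hz2 hc ht hβ hS
  rw [← h1] at h2
  have h4 := h2.trans h3
  simp only [h0] at h4
  exact h4

end Pool.Agent.T6.H30.TF
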