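import Mathlib
import Pool.Agent.T6.H30.TF.Defs
import Pool.Agent.TH344.BF.Maf

/-! Project TF: the main average for the classes `a`, `b`, `a + b`, `a - b`. -/

set_option autoImplicit false

namespace Pool.Agent.T6.H30.TF

open Finset Pool.Agent.W262.RK Pool.Agent.W262.RK.AT Pool.Agent.W307.RT Pool.Agent.TH344.DT
  Pool.Agent.TH344.JG Pool.Agent.TH344.BF Pool.Agent.TH344.GT

lemma κ4_eq : κ4 = ![1, 1, -1, -1] := by
  unfold κ4
  decide

lemma ag4_self (j : Fin 4) : ag c4 j j = false := by revert j; decide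

lemma ag4_comm (j l : Fin 4) : ag c4 j l = ag c4 l j := by revert j l; decide

lemma ag4_D (j l : Fin 4) (hj : j ∈ ({2, 3} : Finset (Fin 4))) (hl : l ∈ ({2, 3} : Finset (Fin 4))) :
    ag c4 j l = false := by revert j l; decide

theorem maf4 (hA : S_ATX) (hC : S_CMB4) (hE : S_EXPK) : S_MAF4 := by
  intro k hk
  classical
  obtain ⟨T, hT1, hT2, hU⟩ := hC k hk
  refine ⟨T, hT1, hT2, ?_⟩
  have hw : (0 : ℝ) < 1 / 2 ^ k ∧ (1 / 2 ^ k : ℝ) ≤ 1 / 2 := by
    refine ⟨by positivity, ?_⟩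
    apply one_div_le_one_div_of_le (by norm_num)
    calc (2 : ℝ) = 2 ^ 1 := (pow_one 2).symm
      _ ≤ 2 ^ k := pow_le_pow_right₀ (by norm_num) hk
  have hκ : ∀ j, κ4 j ≠ 0 := by
    rw [κ4_eq]
    decide
  have hLL : ∀ i : IV (Fin 4) k PA, LV (ag c4) i i = false := by
    intro i
    unfold LV
    rw [ag4_self i.1.1, Bool.false_and]
  have hkap : ∀ i : IV (Fin 4) k PA, kapI κ4 i ≠ 0 := by
    intro i
    unfold kapI
    split_ifs
    · exact hκ _
    · exact one_ne_zero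
  have hKK : KK (fun i : IV (Fin 4) k PA => i.1.1) (kapI κ4) NI ({2, 3} : Finset (Fin 4)) := by
    intro j hj
    refine ⟨1, one_ne_zero, ?_⟩
    have hj' : j.1.1 = 2 ∨ j.1.1 = 3 := by
      have h := hj
      simp only [mem_insert, mem_singleton] at h
      exact h
    have h2 : κ4 j.1.1 = -1 := by
      rw [κ4_eq]
      rcases hj' with h | h <;> rw [h] <;> rfl
    unfold kapI NI
    rw [h2, decide_eq_true hj', Bool.true_and]
    norm_num
  have hLD : LD (fun i : IV (Fin 4) k PA => i.1.1) (LV (ag c4)) ({2, 3} : Finset (Fin 4)) := by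
    intro i j hi hj
    unfold LV
    rw [ag4_D _ _ hi hj, Bool.false_and]
  obtain ⟨z0, hz0⟩ := hA (Fin 4) (IV (Fin 4) k PA) (fun i => i.1.1) (fun _ => 1 / 2 ^ k)
    (LV (ag c4)) (kapI κ4) NI (Fintype.card (Fin 4)) 4 T {2, 3} (fun _ => hw) hLL hkap
    (by norm_num) hT1 hKK hLD hU
  obtain ⟨z1, hz1⟩ : ∃ z1 : ℕ, ∀ j, (κ4 j).natAbs ≤ z1 :=
    ⟨univ.sup (fun j => (κ4 j).natAbs), fun j => Finset.le_sup (f := fun j => (κ4 j).natAbs)
      (mem_univ j)⟩
  refine ⟨max z0 (max z1 2), fun z hz => ?_⟩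
  obtain ⟨C, hC'⟩ := hz0 z (le_trans (le_max_left _ _) hz)
  refine ⟨C, fun y hy => ?_⟩
  have hz' : max z1 2 ≤ z := le_trans (le_max_right _ _) hz
  have hz2 : 2 ≤ z := le_trans (le_max_right _ _) hz'
  have hzk : ∀ j, (κ4 j).natAbs ≤ z := fun j => (hz1 j).trans (le_trans (le_max_left _ _) hz')
  have e1 : ∑ s ∈ Tup (Fin 4) z y, (NV (ag c4) s (EK κ4 s) : ℝ) ^ k * rho T (om s) *
      ∏ j, gw 1 (Fintype.card (Fin 4)) (s j) =
      ∑ s ∈ Tup (Fin 4) z y, (NV (ag c4) s (EK κ4 s) : ℝ) ^ k *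
        (∏ j, gw 1 (Fintype.card (Fin 4)) (s j)) * rho T (om s) := by
    apply sum_congr rfl
    intro s _
    ring
  have e2 : ∑ d ∈ Tup (IV (Fin 4) k PA) z y, (∏ i, gw (1 / 2 ^ k) (Fintype.card (Fin 4)) (d i)) *
      Sym (LV (ag c4)) (kapI κ4) d * rho T (om (fun j : Fin 4 =>
        ∏ i ∈ univ.filter (fun i : IV (Fin 4) k PA => i.1.1 = j), d i)) =
      ∑ d ∈ Tup (IV (Fin 4) k PA) z y, (∏ i, gw (1 / 2 ^ k) (Fintype.card (Fin 4)) (d i)) *
      Sym (LV (ag c4)) (kapI κ4) d * rho T (nn (fun i : IV (Fin 4) k PA => i.1.1) (om d)) := by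
    apply sum_congr rfl
    intro d hd
    rw [om_classV hd]
  rw [e1, hE (Fin 4) (ag c4) ag4_self ag4_comm κ4 k (Fintype.card (Fin 4)) z y hz2 hκ hzk
    (fun s => rho T (om s)), e2]
  refine (le_trans (le_abs_self _) (hC' y hy)).trans (le_of_eq ?_)
  rw [Fintype.card_fin, show (4 : ℝ) = ((4 : ℕ) : ℝ) by norm_num, Real.rpow_natCast]

end Pool.Agent.T6.H30.TF
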