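import Mathlib
import Pool.Agent.T6.H30.TF.Defs
import Pool.Agent.TH344.BF.Fin
import Pool.Agent.TH344.GT.Cur
import Pool.Agent.W307.RT.Main4
import Pool.Agent.W605.RT.PAR4
import Pool.Agent.W597.SE.SELC
import Pool.Agent.W402.FK.RKS
import Pool.Agent.W701.FK.Find

/-! Project TF: the curves with `Z/2 x Z/4`, one exceptional set for all the moments. -/

set_option autoImplicit false

namespace Pool.Agent.T6.H30.TF

open Finset Pool.Agent.W262.RK Pool.Agent.W307.RT Pool.Agent.W307.SE Pool.Agent.TH344.DT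
  Pool.Agent.TH344.JG Pool.Agent.TH344.SG Pool.Agent.TH344.GT Pool.Agent.W605.RT
  Pool.Agent.TH344.BF

lemma κ4_ne' : ∀ j, κ4 j ≠ 0 := by
  unfold κ4
  decide

/-- the numbers of the prime factors of the four forms -/
def om4' (t : ℤ × ℤ) : Fin 4 → ℕ := omB α4 β4 (t.1, t.2 - 2 * t.1)

open Classical in
/-- the weighted `k`-th power -/
noncomputable def W4' (k : ℕ) (T : Finset (Fin 4 → ℝ)) (t : ℤ × ℤ) : ℝ :=
  if IsCoprime t.1 t.2 ∧ M4 t.1 t.2 ≠ 0 ∧ N4 t.1 t.2 ≠ 0 ∧ M4 t.1 t.2 ≠ N4 t.1 t.2 then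
    ((Sel (-(M4 t.1 t.2)) (-(N4 t.1 t.2))).ncard : ℝ) ^ k * rho T (om4' t) else 0

lemma W4'_nonneg (k : ℕ) {T : Finset (Fin 4 → ℝ)} (hT : ∀ t ∈ T, ∀ j, 0 < t j) (t : ℤ × ℤ) :
    0 ≤ W4' k T t := by
  unfold W4'
  split_ifs
  · exact mul_nonneg (by positivity) (rho_nonneg hT _)
  · exact le_rfl

lemma fv4_ne {u v : ℤ} (h0 : M4 u (v + 2 * u) ≠ 0) (h1 : N4 u (v + 2 * u) ≠ 0)
    (h2 : M4 u (v + 2 * u) ≠ N4 u (v + 2 * u)) (j : Fin 4) : fv α4 β4 u v j ≠ 0 := by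
  have e0 : M4 u (v + 2 * u) = u ^ 2 := by
    unfold M4
    ring
  have e1 : N4 u (v + 2 * u) = (2 * u + v) ^ 2 := by
    unfold N4
    ring
  have e2 : M4 u (v + 2 * u) - N4 u (v + 2 * u) = (-u - v) * (3 * u + v) := by
    unfold M4 N4
    ring
  rw [e0] at h0
  rw [e1] at h1
  have h3 : (-u - v) * (3 * u + v) ≠ 0 := by
    rw [← e2]
    exact sub_ne_zero.2 h2
  fin_cases j
  · change (1 : ℤ) * u + 0 * v ≠ 0
    intro h
    apply h0
    rw [show u = 0 by linarith]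
    ring
  · change (2 : ℤ) * u + 1 * v ≠ 0
    intro h
    apply h1
    rw [show 2 * u + v = 0 by linarith]
    ring
  · change (-1 : ℤ) * u + -1 * v ≠ 0
    intro h
    apply h3
    rw [show -u - v = 0 by linarith]
    ring
  · change (3 : ℤ) * u + 1 * v ≠ 0
    intro h
    apply h3
    rw [show 3 * u + v = 0 by linarith]
    ring

lemma W4'_le (k : ℕ) {T : Finset (Fin 4 → ℝ)} (hT : ∀ t ∈ T, ∀ j, 0 < t j) (t : ℤ × ℤ) :
    W4' k T t ≤ WB c4 (fun _ => -1) m4 α4 β4 k T (t.1, t.2 - 2 * t.1) := by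
  have hnn : 0 ≤ WB c4 (fun _ => -1) m4 α4 β4 k T (t.1, t.2 - 2 * t.1) := by
    unfold WB
    split_ifs
    · exact mul_nonneg (by positivity) (rho_nonneg hT _)
    · exact le_rfl
  unfold W4'
  split_ifs with h
  · obtain ⟨h1, h2, h3, h4⟩ := h
    have e : t.2 = (t.2 - 2 * t.1) + 2 * t.1 := by ring
    have h5 : IsCoprime t.1 (t.2 - 2 * t.1) := by
      have h6 : t.2 - 2 * t.1 = t.2 + t.1 * (-2) := by ring
      rw [h6]
      exact IsCoprime.add_mul_left_right_iff.2 h1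
    rw [e] at h2 h3 h4
    have h6 := fv4_ne h2 h3 h4
    unfold WB
    rw [if_pos ⟨h5, h6⟩, FM40, FM41]
    have e' : t.2 = (t.2 - 2 * t.1) + ((2 : ℕ) : ℤ) * t.1 := by push_cast; ring
    rw [← e']
    exact le_rfl
  · exact hnn

/-- the weighted moments over the boxes -/
theorem box4w (hA : S_AVGB) {k : ℕ} {T : Finset (Fin 4 → ℝ)} (hT : ∀ t ∈ T, ∀ j, 0 < t j)
    (hM : MAFK (ag c4) κ4 k T) :
    ∃ C : ℝ, 0 ≤ C ∧ ∀ N : ℕ, 1 ≤ N → ∑ t ∈ Box N, W4' k T t ≤ C * (N : ℝ) ^ 2 := by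
  obtain ⟨C, hC0, hC⟩ := hA (Fin 4) c4 (fun _ => -1) m4 α4 β4 (by decide) (by decide) (by decide)
    (by decide) (by decide) κ4_ne' (by decide) (fun j => by revert j; decide)
    (fun u v => by rw [FM40, FM41, FM42]; ring) k T hT hM 1
  refine ⟨C * 7 ^ 2, by positivity, fun X hX => ?_⟩
  set N := 3 * X with hN
  have h1 : ∑ t ∈ Box X, W4' k T t ≤ ∑ s ∈ Box N, WB c4 (fun _ => -1) m4 α4 β4 k T s := by
    calc ∑ t ∈ Box X, W4' k T t
        ≤ ∑ t ∈ Box X, WB c4 (fun _ => -1) m4 α4 β4 k T (t.1, t.2 - 2 * t.1) :=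
          sum_le_sum fun t _ => W4'_le k hT t
      _ = ∑ s ∈ (Box X).image (fun t : ℤ × ℤ => (t.1, t.2 - 2 * t.1)),
            WB c4 (fun _ => -1) m4 α4 β4 k T s := by
          rw [sum_image]
          intro t _ t' _ h
          obtain ⟨h3, h4⟩ := Prod.mk.inj h
          rw [h3] at h4
          exact Prod.ext h3 (by linarith)
      _ ≤ _ := by
          apply sum_le_sum_of_subset_of_nonneg
          · intro s hs
            rw [mem_image] at hs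
            obtain ⟨t, ht, rfl⟩ := hs
            rw [mem_Box] at ht ⊢
            dsimp only
            omega
          · intro s _ _
            unfold WB
            split_ifs
            · exact mul_nonneg (by positivity) (rho_nonneg hT _)
            · exact le_rfl
  have h3 := hC (-((N : ℤ) + 1)) (-((N : ℤ) + 1)) (2 * N + 1) (by omega) (by
    rw [pow_one]
    omega) (by
    rw [pow_one]
    omega)
  rw [sum_Box_shift (WB c4 (fun _ => -1) m4 α4 β4 k T)] at h1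
  refine h1.trans (h3.trans ?_)
  rw [mul_assoc]
  apply mul_le_mul_of_nonneg_left _ hC0
  rw [← mul_pow]
  apply pow_le_pow_left₀ (Nat.cast_nonneg _)
  have hX' : (1 : ℝ) ≤ X := by exact_mod_cast hX
  rw [hN]
  push_cast
  nlinarith

lemma card_filter_le_inj' {α β : Type} {s : Finset α} {t : Finset β} {p : α → Prop}
    {q : β → Prop} (i1 : DecidablePred p) (i2 : DecidablePred q) (f : α → β)
    (h1 : ∀ x ∈ s, p x → f x ∈ t ∧ q (f x)) (h2 : Function.Injective f) :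
    (s.filter p).card ≤ (t.filter q).card := by
  apply card_le_card_of_injOn f
  · intro x hx
    have hx' := mem_filter.1 (mem_coe.1 hx)
    exact mem_coe.2 (mem_filter.2 (h1 x hx'.1 hx'.2))
  · exact h2.injOn

/-- the exceptional pairs are rare -/
theorem bad4 (hB : S_BADB) {T : Finset (Fin 4 → ℝ)} (hT : ∀ t ∈ T, ∀ j, 0 < t j)
    (hT2 : ∀ t ∈ T, 1 < ∏ j, t j) (ε : ℝ) (hε : 0 < ε) : ∃ N0 : ℕ, ∀ N, N0 ≤ N →
    (((Box N).filter (fun t => (M4 t.1 t.2 ≠ 0 ∧ N4 t.1 t.2 ≠ 0 ∧ M4 t.1 t.2 ≠ N4 t.1 t.2) ∧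
      rho T (om4' t) < 1)).card : ℝ) ≤ ε * N ^ 2 := by
  classical
  obtain ⟨N0, hN0⟩ := hB (Fin 4) α4 β4 (by decide) T hT hT2 (ε / 9) (by positivity)
  refine ⟨N0, fun X hX => ?_⟩
  have h2 := hN0 (3 * X) (by omega)
  refine le_trans (Nat.cast_le.2 (card_filter_le_inj' _ _
    (fun t : ℤ × ℤ => (t.1, t.2 - 2 * t.1)) ?_ ?_)) (le_trans h2 (le_of_eq ?_))
  · rintro t hb ⟨⟨h2, h3, h4⟩, h5⟩
    rw [mem_Box] at hb
    have e : t.2 = (t.2 - 2 * t.1) + 2 * t.1 := by ring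
    rw [e] at h2 h3 h4
    refine ⟨mem_Box.2 ?_, fv4_ne h2 h3 h4, h5⟩
    dsimp only
    omega
  · intro t t' h
    obtain ⟨h3, h4⟩ := Prod.mk.inj h
    rw [h3] at h4
    exact Prod.ext h3 (by linarith)
  · push_cast
    ring

/-- the roots -/
lemma roots4 {c ab : ℤ × ℤ} (hR : Rel c ab) : ∃ g e1 e2 e3 : ℤ, 0 < g ∧
    (∀ x : ℤ, x ^ 3 + c.1 * x + c.2 = (x - e1) * (x - e2) * (x - e3)) ∧
      ((e2 - e1 : ℤ) : ℚ) = -(M4 ab.1 ab.2 : ℚ) * (g : ℚ) ^ 2 ∧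
      ((e3 - e1 : ℤ) : ℚ) = -(N4 ab.1 ab.2 : ℚ) * (g : ℚ) ^ 2 := by
  obtain ⟨g, e, hg, -, -, -, -, he, hA, hB⟩ := hR
  set a := ab.1 with ha
  set b := ab.2 with hb
  refine ⟨g, e, e - g ^ 2 * a ^ 2, e - g ^ 2 * b ^ 2, hg, fun x => ?_, ?_, ?_⟩
  · have h27 : (27 : ℤ) * (x ^ 3 + c.1 * x + c.2) =
        27 * ((x - e) * (x - (e - g ^ 2 * a ^ 2)) * (x - (e - g ^ 2 * b ^ 2))) := by
      have h1 : (27 : ℤ) * (x ^ 3 + c.1 * x + c.2) = 27 * x ^ 3 + 9 * (3 * c.1) * x + 27 * c.2 := by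
        ring
      have h2 : (27 : ℤ) * ((x - e) * (x - (e - g ^ 2 * a ^ 2)) * (x - (e - g ^ 2 * b ^ 2))) =
          (3 * x - 3 * e) * (3 * x - 3 * e + 3 * (g ^ 2 * a ^ 2)) *
            (3 * x - 3 * e + 3 * (g ^ 2 * b ^ 2)) := by
        ring
      rw [h1, h2, hA, hB, he]
      ring
    linarith
  · unfold M4
    push_cast
    ring
  · unfold N4
    push_cast
    ring

/-- the Selmer group of a curve of the family -/
theorem sel4 {H : ℕ} {c : ℤ × ℤ} (hc : c ∈ Cv 4 H) : (SelR c.1 c.2).Finite ∧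
    (SelR c.1 c.2).ncard ≤ (Sel (-(M4 (FF c).1 (FF c).2)) (-(N4 (FF c).1 (FF c).2))).ncard ∧
    2 ^ Module.finrank ℤ (Sh c.1 c.2).toAffine.Point ≤ (SelR c.1 c.2).ncard := by
  simp only [Cv, Finset.mem_filter] at hc
  obtain ⟨-, hD, -, -, -, hT⟩ := hc
  have r := FF_rel (core hD hT)
  change Rel c (FF c) at r
  obtain ⟨g, e1, e2, e3, hg, hr, h5, h6⟩ := roots4 r
  obtain ⟨-, -, -, -, ha0, hb0, hne, -⟩ := r
  have hgq : (g : ℚ) ≠ 0 := by exact_mod_cast hg.ne'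
  have hm0 : M4 (FF c).1 (FF c).2 ≠ 0 := pow_ne_zero 2 ha0
  have hn0 : N4 (FF c).1 (FF c).2 ≠ 0 := pow_ne_zero 2 hb0
  have hmn : M4 (FF c).1 (FF c).2 ≠ N4 (FF c).1 (FF c).2 := hne
  have hfin := Pool.Agent.W701.FK.sel_fin' (neg_ne_zero.2 hm0) (neg_ne_zero.2 hn0)
    (fun h => hmn (neg_injective h))
  obtain ⟨f1, f2⟩ := Pool.Agent.W597.SE.selc c.1 c.2 e1 e2 e3 (-(M4 (FF c).1 (FF c).2))
    (-(N4 (FF c).1 (FF c).2)) (g : ℚ) hD hr hgq (by rw [h5]; push_cast; ring)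
    (by rw [h6]; push_cast; ring) hfin
  exact ⟨f1, f2, Pool.Agent.W402.FK.rks c.1 c.2 e1 e2 e3 hD hr f1⟩

/-- **one exceptional set for all the moments, for `Z/2 x Z/4`** -/
theorem t24 : S_T24 := by
  intro hA hM hB
  classical
  apply exc_curves (κ := 12) (by norm_num) Pool.Agent.W29.RT.low4 54 FF
    (fun t => M4 t.1 t.2 ≠ 0 ∧ N4 t.1 t.2 ≠ 0 ∧ M4 t.1 t.2 ≠ N4 t.1 t.2)
  · intro H c hc c' hc' hcc
    rw [Finset.mem_coe] at hc hc'
    simp only [Cv, Finset.mem_filter] at hc hc'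
    obtain ⟨-, hD, -, -, hmin, hT⟩ := hc
    obtain ⟨-, hD', -, -, hmin', hT'⟩ := hc'
    have r := FF_rel (core hD hT)
    have r' := FF_rel (core hD' hT')
    change Rel c (FF c) at r
    change Rel c' (FF c') at r'
    rw [← hcc] at r'
    exact rel_unique r r' hmin hmin'
  · intro H c hc
    simp only [Cv, Finset.mem_filter] at hc
    obtain ⟨-, hD, hH, -, hmin, hT⟩ := hc
    have r := FF_rel (core hD hT)
    change Rel c (FF c) at r
    obtain ⟨hb1, hb2⟩ := rel_bound (A := c.1) (B := c.2) r hH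
    obtain ⟨-, -, -, -, ha0, hb0, hne, -⟩ := r
    exact ⟨⟨pow_ne_zero 2 ha0, pow_ne_zero 2 hb0, hne⟩, hb1, hb2⟩
  · intro k hk
    obtain ⟨T, hT1, hT2, hT3⟩ := hM k hk
    refine ⟨fun t => rho T (om4' t), W4' k T, fun t => ⟨rho_nonneg hT1 _, rho_le_one _ _⟩,
      W4'_nonneg k hT1, fun ε hε => ?_, fun H c hc => ?_, box4w hA hT1 hT3⟩
    · obtain ⟨N0, h⟩ := bad4 hB hT1 hT2 ε hε
      refine ⟨N0, fun N hN => ?_⟩
      have := h N hN
      convert this using 3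
      ext t
      simp
    · have hs := (sel4 hc).2.1
      simp only [Cv, Finset.mem_filter] at hc
      obtain ⟨-, hD, hH, -, hmin, hT⟩ := hc
      have r := FF_rel (core hD hT)
      change Rel c (FF c) at r
      obtain ⟨-, -, -, hco, ha0, hb0, hne, -⟩ := r
      unfold W4'
      rw [if_pos ⟨hco, pow_ne_zero 2 ha0, pow_ne_zero 2 hb0, hne⟩]
      apply mul_le_mul_of_nonneg_right _ (rho_nonneg hT1 _)
      apply pow_le_pow_left₀ (Nat.cast_nonneg _)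
      exact_mod_cast hs

end Pool.Agent.T6.H30.TF
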