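import Mathlib
import Pool.Agent.T6.H30.TF.AC
import Pool.Agent.T6.H30.TF.Reg
import Pool.Agent.T6.H30.TF.Crit
import Pool.Agent.T6.H30.TF.Atx
import Pool.Agent.T6.H30.TF.Cmb
import Pool.Agent.T6.H30.TF.T24
import Pool.Agent.T6.H30.TF.Maf4
import Pool.Agent.TH344.BF.Main

/-! Project TF: the main theorem. -/

set_option autoImplicit false

namespace Pool.Agent.T6.H30.TF

open Pool.Agent.W307.RT Pool.Agent.TH344.DT Pool.Agent.TH344.BF Pool.Agent.TH344.GT

theorem mainMaf : S_MAF4 := maf4 (atx ful lnk (crit ful ac reg)) cmb4 expk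

/-- **one exceptional set for all the moments, for `Z/2 x Z/4`** -/
theorem exc4 : EXC (Cv 4) (fun c => (Pool.Agent.W307.SE.SelR c.1 c.2).ncard) :=
  t24 avgb mainMaf badb

end Pool.Agent.T6.H30.TF
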