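import Mathlib
import Pool.Agent.TH344.GT.Tail
import Pool.Agent.Y294.ET.Low8
import Pool.Agent.W307.RT.Main4
import Pool.Agent.W261.RT.Iso

/-! Project TF: subfamilies of positive proportion. -/

set_option autoImplicit false

namespace Pool.Agent.T6.H30.TF

open Finset Filter Topology Pool.Agent.W307.RT Pool.Agent.TH344.GT

theorem exc_sub {α : Type} {A B : ℕ → Finset α} {f : α → ℕ} (h : EXC A f) (hBA : ∀ H, B H ⊆ A H)
    {C : ℝ} (hC : ∀ H, (B H).Nonempty → ((A H).card : ℝ) ≤ C * (B H).card) : EXC B f := by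
  classical
  obtain ⟨Z, hZ1, hZ2⟩ := h
  have hC' : ∀ H, (B H).Nonempty → ((A H).card : ℝ) ≤ (|C| + 1) * (B H).card := by
    intro H hH
    refine (hC H hH).trans ?_
    apply mul_le_mul_of_nonneg_right _ (Nat.cast_nonneg _)
    have := le_abs_self C
    linarith
  refine ⟨Z, fun ε hε => ?_, fun k => ?_⟩
  · obtain ⟨H0, hH0⟩ := hZ1 (ε / (|C| + 1)) (by positivity)
    refine ⟨H0, fun H hH => ?_⟩
    rcases (B H).eq_empty_or_nonempty with he | hne
    · rw [he]
      simp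
    have h1 : ((B H).filter (fun c => c ∈ Z)).card ≤ ((A H).filter (fun c => c ∈ Z)).card :=
      card_le_card (filter_subset_filter _ (hBA H))
    calc (((B H).filter (fun c => c ∈ Z)).card : ℝ)
        ≤ (((A H).filter (fun c => c ∈ Z)).card : ℝ) := by exact_mod_cast h1
      _ ≤ ε / (|C| + 1) * (A H).card := hH0 H hH
      _ ≤ ε / (|C| + 1) * ((|C| + 1) * (B H).card) :=
          mul_le_mul_of_nonneg_left (hC' H hne) (by positivity)
      _ = ε * (B H).card := by
          field_simp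
  · obtain ⟨C2, hC2⟩ := hZ2 k
    refine ⟨|C2| * (|C| + 1), fun H => ?_⟩
    rcases (B H).eq_empty_or_nonempty with he | hne
    · rw [he]
      simp
    calc ∑ c ∈ (B H).filter (fun c => c ∉ Z), (f c : ℝ) ^ k
        ≤ ∑ c ∈ (A H).filter (fun c => c ∉ Z), (f c : ℝ) ^ k :=
          sum_le_sum_of_subset_of_nonneg (filter_subset_filter _ (hBA H))
            fun c _ _ => by positivity
      _ ≤ C2 * (A H).card := hC2 H
      _ ≤ |C2| * (A H).card := mul_le_mul_of_nonneg_right (le_abs_self _) (Nat.cast_nonneg _)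
      _ ≤ |C2| * ((|C| + 1) * (B H).card) := mul_le_mul_of_nonneg_left (hC' H hne) (abs_nonneg _)
      _ = _ := by ring

/-- the curves without a point of order 8 have positive proportion -/
theorem prop8 : ∃ C : ℝ, ∀ H : ℕ, (Pool.Agent.Y294.ET.G8 H).Nonempty →
    ((Cv 4 H).card : ℝ) ≤ C * (Pool.Agent.Y294.ET.G8 H).card := by
  obtain ⟨C, hC⟩ := Pool.Agent.Y294.ET.final_sub (by norm_num)
    (Pool.Agent.W605.RT.par4_of Pool.Agent.W261.RT.iso) _ Pool.Agent.Y294.ET.G8_sub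
    Pool.Agent.Y294.ET.low8 Pool.Agent.W307.RT.box4
  exact ⟨C, fun H => (hC H).2⟩

theorem tend8 : Tendsto (fun H : ℕ => (Pool.Agent.Y294.ET.G8 H).card) atTop atTop := by
  obtain ⟨c, C, T0, hc, h⟩ := Pool.Agent.Y294.ET.low8
  rw [tendsto_atTop_atTop]
  intro b
  obtain ⟨n, hn⟩ := exists_nat_gt ((b : ℝ) / c)
  set T := max (max n T0) 1 with hT
  have h1 : (b : ℝ) ≤ c * (T : ℝ) ^ 2 := by
    rw [div_lt_iff₀ hc] at hn
    have hT1 : (1 : ℝ) ≤ T := by exact_mod_cast (le_max_right (max n T0) 1)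
    have hTn : (n : ℝ) ≤ T := by
      exact_mod_cast (le_max_left n T0).trans (le_max_left (max n T0) 1)
    have h2 : (T : ℝ) ≤ (T : ℝ) ^ 2 := by nlinarith
    nlinarith
  refine ⟨C * T ^ 12, fun H hH => ?_⟩
  have h3 := h T H ((le_max_right n T0).trans (le_max_left _ 1)) hH
  exact_mod_cast h1.trans h3

theorem exc8 {f : ℤ × ℤ → ℕ} (h : EXC (Cv 4) f) : EXC Pool.Agent.Y294.ET.G8 f := by
  obtain ⟨C, hC⟩ := prop8
  exact exc_sub h Pool.Agent.Y294.ET.G8_sub hC

end Pool.Agent.T6.H30.TF
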