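import Mathlib

/-! Project TF: a Gauss sum over a subgroup of `F_2^(2k)`. -/

set_option autoImplicit false

namespace Pool.Agent.T6.H30.TF.Gs

open Finset

/-- the character -/
def chi (k : ℕ) (x z : Fin k → Bool) : ℤ := ∏ j, (if (x j && z j) = true then -1 else 1)

/-- the symplectic sign -/
def hh (k : ℕ) (a b : (Fin k → Bool) × (Fin k → Bool)) : ℤ := chi k a.1 b.2 * chi k b.1 a.2

/-- the sum -/
def vx {k : ℕ} (x y : Fin k → Bool) : Fin k → Bool := fun j => xor (x j) (y j)

/-- the sum -/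
def px {k : ℕ} (a b : (Fin k → Bool) × (Fin k → Bool)) : (Fin k → Bool) × (Fin k → Bool) :=
  (vx a.1 b.1, vx a.2 b.2)

lemma chi_vx_left (k : ℕ) (x x' z : Fin k → Bool) : chi k (vx x x') z = chi k x z * chi k x' z := by
  unfold chi
  rw [← prod_mul_distrib]
  apply prod_congr rfl
  intro j _
  unfold vx
  cases x j <;> cases x' j <;> cases z j <;> simp

lemma chi_vx_right (k : ℕ) (x z z' : Fin k → Bool) : chi k x (vx z z') = chi k x z * chi k x z' := by
  unfold chi
  rw [← prod_mul_distrib]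
  apply prod_congr rfl
  intro j _
  unfold vx
  cases x j <;> cases z j <;> cases z' j <;> simp

lemma chi_pm (k : ℕ) (x z : Fin k → Bool) : chi k x z = 1 ∨ chi k x z = -1 := by
  unfold chi
  apply Finset.prod_induction _ (fun t : ℤ => t = 1 ∨ t = -1)
  · rintro a b (rfl | rfl) (rfl | rfl) <;> simp
  · left; rfl
  · intro j _
    split_ifs
    · right; rfl
    · left; rfl

lemma hh_px_left (k : ℕ) (a a' b : (Fin k → Bool) × (Fin k → Bool)) :
    hh k (px a a') b = hh k a b * hh k a' b := by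
  unfold hh px
  simp only
  rw [chi_vx_left, chi_vx_right]
  ring

lemma hh_px_right (k : ℕ) (a b b' : (Fin k → Bool) × (Fin k → Bool)) :
    hh k a (px b b') = hh k a b * hh k a b' := by
  unfold hh px
  simp only
  rw [chi_vx_left, chi_vx_right]
  ring

lemma hh_pm (k : ℕ) (a b : (Fin k → Bool) × (Fin k → Bool)) : hh k a b = 1 ∨ hh k a b = -1 := by
  unfold hh
  rcases chi_pm k a.1 b.2 with h | h <;> rcases chi_pm k b.1 a.2 with h' | h' <;> rw [h, h'] <;>
    norm_num

lemma chi_symm (k : ℕ) (x z : Fin k → Bool) : chi k x z = chi k z x := by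
  unfold chi
  apply Finset.prod_congr rfl
  intro j _
  rw [Bool.and_comm]

lemma hh_symm (k : ℕ) (a b : (Fin k → Bool) × (Fin k → Bool)) : hh k a b = hh k b a := by
  unfold hh
  ring

lemma px_px (k : ℕ) (a b : (Fin k → Bool) × (Fin k → Bool)) : px a (px a b) = b := by
  unfold px vx
  ext j
  · simp
  · simp

lemma px_comm (k : ℕ) (a b : (Fin k → Bool) × (Fin k → Bool)) : px a b = px b a := by
  unfold px vx
  ext j
  · simp [Bool.xor_comm]
  · simp [Bool.xor_comm]

/-- the sum of a character over a group -/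
lemma char_sum (k : ℕ) (W : Finset ((Fin k → Bool) × (Fin k → Bool)))
    (hW : ∀ a ∈ W, ∀ b ∈ W, px a b ∈ W) (h : (Fin k → Bool) × (Fin k → Bool)) :
    ∑ a ∈ W, hh k a h = if ∀ a ∈ W, hh k a h = 1 then (W.card : ℤ) else 0 := by
  classical
  split_ifs with hc
  · rw [sum_congr rfl hc]
    simp
  · push Not at hc
    obtain ⟨a0, ha0, h0⟩ := hc
    have h1 : hh k a0 h = -1 := (hh_pm k a0 h).resolve_left h0
    have h2 : ∑ a ∈ W, hh k a h = ∑ a ∈ W, hh k (px a0 a) h := by
      apply sum_bij' (fun a _ => px a0 a) (fun a _ => px a0 a)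
      · intro a ha
        exact hW a0 ha0 a ha
      · intro a ha
        exact hW a0 ha0 a ha
      · intro a _
        exact px_px k a0 a
      · intro a _
        exact px_px k a0 a
      · intro a _
        rw [px_px]
    have h3 : ∑ a ∈ W, hh k (px a0 a) h = -∑ a ∈ W, hh k a h := by
      rw [← sum_neg_distrib]
      apply sum_congr rfl
      intro a _
      rw [hh_px_left, h1]
      ring
    linarith

/-- **the Gauss sum** -/
theorem gauss (k : ℕ)
    (hl : ∀ A B : Finset ((Fin k → Bool) × (Fin k → Bool)),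
      (∀ a ∈ A, ∀ b ∈ B, hh k a b = 1) → A.card * B.card ≤ 4 ^ k)
    (W : Finset ((Fin k → Bool) × (Fin k → Bool)))
    (hW : ∀ a ∈ W, ∀ b ∈ W, px a b ∈ W) (s : (Fin k → Bool) × (Fin k → Bool) → ℝ)
    (hs1 : ∀ a, s a = 1 ∨ s a = -1)
    (hs : ∀ a b, s (px a b) = s a * s b * (hh k a b : ℤ)) :
    |∑ a ∈ W, s a| ≤ 2 ^ k := by
  classical
  set R := W.filter (fun h => ∀ a ∈ W, hh k a h = 1) with hR
  have h1 : (∑ a ∈ W, s a) ^ 2 = ∑ h ∈ W, s h * ((∑ a ∈ W, hh k a h : ℤ) : ℝ) := by
    rw [sq, sum_mul_sum]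
    have h2 : ∀ a ∈ W, ∑ b ∈ W, s a * s b = ∑ h ∈ W, s h * (hh k a h : ℤ) := by
      intro a ha
      have h3 : ∑ b ∈ W, s a * s b = ∑ h ∈ W, s a * s (px a h) := by
        apply sum_bij' (fun b _ => px a b) (fun b _ => px a b)
        · intro b hb
          exact hW a ha b hb
        · intro b hb
          exact hW a ha b hb
        · intro b _
          exact px_px k a b
        · intro b _
          exact px_px k a b
        · intro b _
          rw [px_px]
      rw [h3]
      apply sum_congr rfl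
      intro h _
      rw [hs]
      have h4 : s a * s a = 1 := by
        rcases hs1 a with h | h <;> rw [h] <;> norm_num
      linear_combination (s h * (hh k a h : ℤ)) * h4
    rw [sum_congr rfl h2, sum_comm]
    apply sum_congr rfl
    intro h _
    rw [← mul_sum]
    push_cast
    rfl
  have h5 : (∑ a ∈ W, s a) ^ 2 = ∑ h ∈ R, s h * (W.card : ℝ) := by
    rw [h1, hR, sum_filter]
    apply sum_congr rfl
    intro h _
    rw [char_sum k W hW h]
    split_ifs with hc
    · push_cast
      rfl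
    · simp
  have h6 : ∑ h ∈ R, s h * (W.card : ℝ) ≤ (R.card : ℝ) * W.card := by
    rw [← sum_mul]
    apply mul_le_mul_of_nonneg_right _ (Nat.cast_nonneg _)
    calc ∑ h ∈ R, s h ≤ ∑ _h ∈ R, (1 : ℝ) := by
          apply sum_le_sum
          intro h _
          rcases hs1 h with h' | h' <;> rw [h'] <;> norm_num
      _ = R.card := by simp
  have h7 : W.card * R.card ≤ 4 ^ k := hl W R (fun a ha b hb => (mem_filter.1 hb).2 a ha)
  have h8 : (∑ a ∈ W, s a) ^ 2 ≤ (2 ^ k) ^ 2 := by
    rw [h5]
    refine h6.trans ?_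
    have h9 : ((W.card * R.card : ℕ) : ℝ) ≤ ((4 ^ k : ℕ) : ℝ) := by exact_mod_cast h7
    push_cast at h9
    rw [← pow_mul, mul_comm k 2, pow_mul]
    norm_num
    linarith
  exact abs_le_of_sq_le_sq h8 (by positivity)

end Pool.Agent.T6.H30.TF.Gs
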